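import Pool.Agent.H5L.L3

/-!
Derivations on groups of affine maps; points where the derivation is almost constant.
-/

set_option autoImplicit false

open MonoidAlgebra Pool.Agent.H5

namespace Pool.Agent.H5L

variable {H : Type} [Group H] {n : ℕ}

/-- the linear part -/
def linHom (H : Type) [Group H] (n : ℕ) : Aff H n →* H where
  toFun g := g.lin
  map_one' := rfl
  map_mul' _ _ := rfl

lemma linHom_apply (g : Aff H n) : linHom H n g = g.lin := rfl

/-- value of the vector at a point -/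
noncomputable def dv (g : Aff H n) (y : H) : Fin n → ℤ := fun i => (g.vec i).coeff y

lemma dv_one (y : H) : dv (1 : Aff H n) y = 0 := by
  funext i
  show ((1 : Aff H n).vec i).coeff y = 0
  rw [Aff.one_vec]
  rfl

lemma dv_mul (g h : Aff H n) (y : H) : dv (g * h) y = dv g y + dv h (g.lin⁻¹ * y) := by
  funext i
  show ((g * h).vec i).coeff y = (g.vec i).coeff y + (h.vec i).coeff (g.lin⁻¹ * y)
  rw [Aff.mul_vec, Pi.add_apply, MonoidAlgebra.coeff_add, Finsupp.add_apply, Pi.smul_apply, smul_eq_mul, coeff_el_mul]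

lemma dv_inv (g : Aff H n) (y : H) : dv g⁻¹ y = -dv g (g.lin * y) := by
  have h := dv_mul g g⁻¹ (g.lin * y)
  rw [mul_inv_cancel, dv_one, inv_mul_cancel_left] at h
  exact (neg_eq_of_add_eq_zero_right h.symm).symm

lemma dv_fin (g : Aff H n) : {y | dv g y ≠ 0}.Finite := by
  classical
  refine (Set.finite_iUnion fun i : Fin n => (g.vec i).coeff.support.finite_toSet).subset ?_
  intro y hy
  obtain ⟨i, hi⟩ := Function.ne_iff.1 hy
  exact Set.mem_iUnion.2 ⟨i, Finsupp.mem_support_iff.2 hi⟩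

/-- the derivation is almost constant at `y` on a subgroup of finite index -/
def Tame (S : Subgroup (Aff H n)) (y : H) (c : Fin n → ℤ) : Prop :=
  ∃ B : Subgroup (Aff H n), B ≤ S ∧ B.relIndex S ≠ 0 ∧ {h : H | ∃ g ∈ B, g.lin = h ∧ dv g y ≠ c}.Finite

lemma Tame.conj {S : Subgroup (Aff H n)} {τ : Aff H n}
    (hτ : (S.comap (MulAut.conj τ).toMonoidHom).relIndex S ≠ 0) {y : H} {c : Fin n → ℤ}
    (h : Tame S (τ.lin * y) c) : Tame S y (c - dv τ (τ.lin * y)) := by
  obtain ⟨B, hB, hBi, hfin⟩ := h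
  refine ⟨B.comap (MulAut.conj τ).toMonoidHom ⊓ S, inf_le_right, ?_, ?_⟩
  · rw [Subgroup.inf_relIndex_right]
    refine Subgroup.relIndex_ne_zero_trans ?_ hτ
    rw [Subgroup.relIndex_comap, Subgroup.map_comap_eq_self_of_surjective]
    · exact hBi
    · exact (MulAut.conj τ).surjective
  · have h1 : ((fun h : H => τ.lin * h * τ.lin⁻¹) ⁻¹' {h : H | ∃ g ∈ B, g.lin = h ∧ dv g (τ.lin * y) ≠ c}).Finite := by
      refine hfin.preimage (Function.Injective.injOn ?_)
      intro a b hab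
      exact mul_left_cancel (mul_right_cancel hab)
    have h2 : ((fun h : H => τ.lin * (h⁻¹ * y)) ⁻¹' {z | dv τ z ≠ 0}).Finite := by
      refine (dv_fin τ).preimage (Function.Injective.injOn ?_)
      intro a b hab
      exact inv_injective (mul_right_cancel (mul_left_cancel hab))
    refine (h1.union h2).subset ?_
    rintro _ ⟨g, ⟨hg, -⟩, rfl, hne⟩
    by_contra hcon
    rw [Set.mem_union, not_or] at hcon
    obtain ⟨hc1, hc2⟩ := hcon
    have h3 : dv τ (τ.lin * (g.lin⁻¹ * y)) = 0 := by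
      by_contra h
      exact hc2 h
    have h4 : dv (τ * g * τ⁻¹) (τ.lin * y) = c := by
      by_contra h
      exact hc1 ⟨τ * g * τ⁻¹, hg, rfl, h⟩
    apply hne
    rw [dv_mul, dv_mul, dv_inv, Aff.mul_lin, mul_inv_rev, mul_assoc, inv_mul_cancel_left, h3] at h4
    rw [← h4]
    abel

lemma finset_reps {S B : Subgroup (Aff H n)} (hBi : B.relIndex S ≠ 0) :
    ∃ Q : Finset (Aff H n), (∀ q ∈ Q, q ∈ S) ∧ ∀ g ∈ S, ∃ q ∈ Q, ∃ b ∈ B, g = q * b := by
  classical
  have : Finite (S ⧸ B.subgroupOf S) := by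
    have : (B.subgroupOf S).FiniteIndex := ⟨hBi⟩
    infer_instance
  have : Fintype (S ⧸ B.subgroupOf S) := Fintype.ofFinite _
  refine ⟨Finset.univ.image fun q : S ⧸ B.subgroupOf S => ((q.out : S) : Aff H n), ?_, ?_⟩
  · intro q hq
    obtain ⟨r, -, rfl⟩ := Finset.mem_image.1 hq
    exact r.out.2
  · intro g hg
    obtain ⟨b, hb⟩ := QuotientGroup.mk_out_eq_mul (B.subgroupOf S) (⟨g, hg⟩ : S)
    refine ⟨_, Finset.mem_image_of_mem _ (Finset.mem_univ (QuotientGroup.mk (⟨g, hg⟩ : S))), ((b : S) : Aff H n)⁻¹,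
      B.inv_mem (Subgroup.mem_subgroupOf.1 b.2), ?_⟩
    rw [hb]
    simp

lemma lin_infinite {S B : Subgroup (Aff H n)} (hinf : {h : H | ∃ g ∈ S, g.lin = h}.Infinite)
    (hBi : B.relIndex S ≠ 0) : {h : H | ∃ g ∈ B, g.lin = h}.Infinite := by
  classical
  intro hfin
  apply hinf
  obtain ⟨Q, hQ, hQ'⟩ := finset_reps hBi
  refine (Q.finite_toSet.biUnion fun q _ => hfin.image fun h => q.lin * h).subset ?_
  rintro _ ⟨g, hg, rfl⟩
  obtain ⟨q, hq, b, hb, rfl⟩ := hQ' g hg
  exact Set.mem_iUnion₂.2 ⟨q, hq, b.lin, ⟨b, hb, rfl⟩, rfl⟩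

lemma Tame.unique {S : Subgroup (Aff H n)} (hinf : {h : H | ∃ g ∈ S, g.lin = h}.Infinite) {y : H}
    {c c' : Fin n → ℤ} (h : Tame S y c) (h' : Tame S y c') : c = c' := by
  obtain ⟨B, hB, hBi, hfin⟩ := h
  obtain ⟨B', hB', hBi', hfin'⟩ := h'
  have h1 := lin_infinite hinf (Subgroup.relIndex_inf_ne_zero hBi hBi')
  obtain ⟨_, ⟨g, ⟨hg, hg'⟩, rfl⟩, hg2⟩ := h1.exists_notMem_finite (hfin.union hfin')
  rw [Set.mem_union, not_or] at hg2
  have h2 : dv g y = c := by
    by_contra h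
    exact hg2.1 ⟨g, hg, rfl, h⟩
  have h3 : dv g y = c' := by
    by_contra h
    exact hg2.2 ⟨g, hg', rfl, h⟩
  rw [← h2, h3]

/-- Away from finitely many cosets the derivation vanishes. -/
lemma exists_off {S : Subgroup (Aff H n)} (hS : S.FG) :
    ∃ Z : Finset H, ∀ y, (∀ g ∈ S, ∀ z ∈ Z, y ≠ g.lin * z) → ∀ g ∈ S, dv g y = 0 := by
  classical
  obtain ⟨s, hs⟩ := hS
  refine ⟨s.biUnion fun g => (dv_fin g).toFinset, ?_⟩
  have key : ∀ g ∈ S, ∀ y, (∀ g ∈ S, ∀ z ∈ s.biUnion fun g => (dv_fin g).toFinset, y ≠ g.lin * z) → dv g y = 0 := by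
    intro g hg
    rw [← hs] at hg
    induction hg using Subgroup.closure_induction with
    | mem g hg =>
      intro y hy
      by_contra h
      refine hy 1 S.one_mem y (Finset.mem_biUnion.2 ⟨g, hg, (dv_fin g).mem_toFinset.2 h⟩) ?_
      show y = 1 * y
      rw [one_mul]
    | one => intro y _; exact dv_one y
    | mul g h hg hh ihg ihh =>
      intro y hy
      rw [dv_mul, ihg y hy, zero_add]
      refine ihh _ fun k hk z hz hkz => ?_
      refine hy (g * k) (S.mul_mem (hs ▸ hg) hk) z hz ?_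
      rw [Aff.mul_lin, mul_assoc, ← hkz, mul_inv_cancel_left]
    | inv g hg ihg =>
      intro y hy
      rw [dv_inv, ihg, neg_zero]
      intro k hk z hz hkz
      refine hy (g⁻¹ * k) (S.mul_mem (S.inv_mem (hs ▸ hg)) hk) z hz ?_
      rw [Aff.mul_lin, mul_assoc, ← hkz]
      show y = g.lin⁻¹ * (g.lin * y)
      rw [inv_mul_cancel_left]
  exact fun y hy g hg => key g hg y hy

/-- Not every point is tame. -/
theorem exists_wild {S : Subgroup (Aff H n)} (hS : S.FG) (hinf : {h : H | ∃ g ∈ S, g.lin = h}.Infinite)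
    {x : Fin n → H} (hX : ∀ g ∈ S, g.vec ⬝ᵥ colX x = el g.lin - 1) : ∃ y, ∀ c, ¬ Tame S y c := by
  classical
  by_contra hcon
  push Not at hcon
  choose c hc using hcon
  obtain ⟨Z, hZ⟩ := exists_off hS
  have hself : ∀ τ ∈ S, (S.comap (MulAut.conj τ).toMonoidHom).relIndex S ≠ 0 := by
    intro τ hτ
    have : S.comap (MulAut.conj τ).toMonoidHom = S := by
      ext g
      rw [Subgroup.mem_comap]
      show τ * g * τ⁻¹ ∈ S ↔ g ∈ S
      rw [S.mul_mem_cancel_right (S.inv_mem hτ), S.mul_mem_cancel_left hτ]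
    rw [this, Subgroup.relIndex_self]
    exact one_ne_zero
  have hcoc : ∀ τ ∈ S, ∀ y, c (τ.lin * y) = c y + dv τ (τ.lin * y) := by
    intro τ hτ y
    have h1 := Tame.unique hinf (hc y) (Tame.conj (hself τ hτ) (hc (τ.lin * y)))
    rw [h1]
    abel
  have hoff : ∀ y, (∀ g ∈ S, ∀ z ∈ Z, y ≠ g.lin * z) → c y = 0 := by
    intro y hy
    refine Tame.unique hinf (hc y) ⟨S, le_rfl, by rw [Subgroup.relIndex_self]; exact one_ne_zero, ?_⟩
    convert Set.finite_empty
    ext h
    constructor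
    · rintro ⟨g, hg, -, hne⟩
      exact hne (hZ y hy g hg)
    · intro h; exact h.elim
  -- finite support
  have hfin1 : ∀ z, {y | (∃ g ∈ S, y = g.lin * z) ∧ c y ≠ 0}.Finite := by
    intro z
    obtain ⟨B, hB, hBi, hfin⟩ := hc z
    obtain ⟨Q, hQ, hQ'⟩ := finset_reps hBi
    have hF : {y | (∃ g ∈ B, y = g.lin * z) ∧ c y ≠ 0}.Finite := by
      have h1 : ((fun h : H => h⁻¹ * z) '' {h : H | ∃ g ∈ B, g.lin = h ∧ dv g z ≠ c z}).Finite := hfin.image _
      refine h1.subset ?_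
      rintro _ ⟨⟨g, hg, rfl⟩, hne⟩
      refine ⟨g.lin⁻¹, ⟨g⁻¹, B.inv_mem hg, rfl, ?_⟩, ?_⟩
      · intro h
        apply hne
        rw [hcoc g (hB hg), ← h, dv_inv, neg_add_cancel]
      · show g.lin⁻¹⁻¹ * z = g.lin * z
        rw [inv_inv]
    refine (Q.finite_toSet.biUnion fun q _ => (hF.image fun y => q.lin * y).union (dv_fin q)).subset ?_
    rintro _ ⟨⟨g, hg, rfl⟩, hne⟩
    obtain ⟨q, hq, b, hb, rfl⟩ := hQ' g hg
    refine Set.mem_iUnion₂.2 ⟨q, hq, ?_⟩
    rw [Aff.mul_lin, mul_assoc] at hne ⊢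
    by_cases h : c (b.lin * z) = 0
    · right
      intro h2
      exact hne (by rw [hcoc q (hQ q hq), h, h2, zero_add])
    · left
      exact ⟨b.lin * z, ⟨⟨b, hb, rfl⟩, h⟩, rfl⟩
  have hfin : {y | c y ≠ 0}.Finite := by
    refine (Z.finite_toSet.biUnion fun z _ => hfin1 z).subset ?_
    intro y hy
    by_contra h
    apply hy
    refine hoff y fun g hg z hz hyz => h ?_
    exact Set.mem_iUnion₂.2 ⟨z, hz, ⟨g, hg, hyz⟩, hy⟩
  -- the equation
  have hfins : ∀ (W : Finset H), ∃ B : Subgroup (Aff H n), B ≤ S ∧ B.relIndex S ≠ 0 ∧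
      {h : H | ∃ g ∈ B, g.lin = h ∧ ∃ w ∈ W, dv g w ≠ c w}.Finite := by
    intro W
    induction W using Finset.induction_on with
    | empty => exact ⟨S, le_rfl, by rw [Subgroup.relIndex_self]; exact one_ne_zero, by simp⟩
    | insert w W _ ih =>
      obtain ⟨B, hB, hBi, hfin⟩ := ih
      obtain ⟨B', hB', hBi', hfin'⟩ := hc w
      refine ⟨B ⊓ B', inf_le_left.trans hB, Subgroup.relIndex_inf_ne_zero hBi hBi', (hfin.union hfin').subset ?_⟩
      rintro _ ⟨g, ⟨hg, hg'⟩, rfl, v, hv, hne⟩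
      rcases Finset.mem_insert.1 hv with rfl | hv
      · exact Or.inr ⟨g, hg', rfl, hne⟩
      · exact Or.inl ⟨g, hg, rfl, v, hv, hne⟩
  have heq : ∀ h : H, ∑ i, (c (h * (x i)⁻¹) i - c h i) = -if (1 : H) = h then 1 else 0 := by
    intro h
    obtain ⟨B, hB, hBi, hfinB⟩ := hfins (insert h (Finset.univ.image fun i => h * (x i)⁻¹))
    obtain ⟨_, ⟨g, hg, rfl⟩, hg2⟩ := (lin_infinite hinf hBi).exists_notMem_finite (hfinB.union (Set.finite_singleton h))
    rw [Set.mem_union, not_or] at hg2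
    have h1 : ∀ w ∈ insert h (Finset.univ.image fun i => h * (x i)⁻¹), dv g w = c w := by
      intro w hw
      by_contra hne
      exact hg2.1 ⟨g, hg, rfl, w, hw, hne⟩
    have h2 := congrArg (fun r : MonoidAlgebra ℤ H => r.coeff h) (hX g (hB hg))
    have h3 : (g.vec ⬝ᵥ colX x : MonoidAlgebra ℤ H).coeff h = ∑ i, (dv g (h * (x i)⁻¹) i - dv g h i) := by
      rw [dotProduct, MonoidAlgebra.coeff_sum, Finsupp.finset_sum_apply]
      refine Finset.sum_congr rfl fun i _ => ?_
      rw [colX, mul_sub, mul_one, MonoidAlgebra.coeff_sub, Finsupp.sub_apply]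
      congr 1
      show (g.vec i * MonoidAlgebra.single (x i) 1).coeff h = _
      rw [MonoidAlgebra.coeff_mul_single_apply, mul_one]
      rfl
    have h4 : (el g.lin - 1 : MonoidAlgebra ℤ H).coeff h = -if (1 : H) = h then 1 else 0 := by
      rw [MonoidAlgebra.coeff_sub, Finsupp.sub_apply, MonoidAlgebra.one_def]
      rw [show el g.lin = MonoidAlgebra.single g.lin 1 from rfl, MonoidAlgebra.coeff_single_apply,
        MonoidAlgebra.coeff_single_apply, if_neg (show ¬ g.lin = h from fun h' => hg2.2 h'), zero_sub]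
    have h5 : ∑ i, (c (h * (x i)⁻¹) i - c h i) = ∑ i, (dv g (h * (x i)⁻¹) i - dv g h i) := by
      refine Finset.sum_congr rfl fun i _ => ?_
      rw [h1 _ (Finset.mem_insert_of_mem (Finset.mem_image_of_mem _ (Finset.mem_univ i))),
        h1 h (Finset.mem_insert_self _ _)]
    rw [h5, ← h3, ← h4]
    exact h2
  -- the contradiction
  let C : Fin n → MonoidAlgebra ℤ H := fun i => MonoidAlgebra.ofCoeff
    (Finsupp.onFinset hfin.toFinset (fun y => c y i) (by
      intro y hy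
      rw [Set.Finite.mem_toFinset]
      exact fun h => hy (by rw [h]; rfl)))
  have hC : ∀ i y, (C i).coeff y = c y i := fun i y => rfl
  have h1 : C ⬝ᵥ colX x = -1 := by
    ext h
    rw [dotProduct, MonoidAlgebra.coeff_sum, Finsupp.finset_sum_apply, MonoidAlgebra.coeff_neg, Finsupp.neg_apply,
      MonoidAlgebra.one_def, MonoidAlgebra.coeff_single_apply, ← heq h]
    refine Finset.sum_congr rfl fun i _ => ?_
    rw [colX, mul_sub, mul_one, MonoidAlgebra.coeff_sub, Finsupp.sub_apply]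
    congr 1
    show (C i * MonoidAlgebra.single (x i) 1).coeff h = _
    rw [MonoidAlgebra.coeff_mul_single_apply, mul_one]
    rfl
  have h2 := congrArg (aug H) h1
  rw [dotProduct, map_sum, map_neg, map_one] at h2
  have h3 : ∀ i, aug H (C i * colX x i) = 0 := by
    intro i
    rw [map_mul, colX, map_sub, map_one, aug_el, sub_self, mul_zero]
  rw [Finset.sum_eq_zero fun i _ => h3 i] at h2
  norm_num at h2

/-- A finitely generated group of affine maps has finite index in what is generated with elements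
that conjugate a subgroup of finite index into it. -/
theorem comm_index {S : Subgroup (Aff H n)} (hS : S.FG) (hinf : {h : H | ∃ g ∈ S, g.lin = h}.Infinite)
    {x : Fin n → H} (hX : ∀ g ∈ S, g.vec ⬝ᵥ colX x = el g.lin - 1) {T : Set (Aff H n)}
    (hT : ∀ τ ∈ T, (S.comap (MulAut.conj τ).toMonoidHom).relIndex S ≠ 0) {K : Subgroup H}
    (hK : K ≤ S.map (linHom H n) ⊔ Subgroup.closure (linHom H n '' T)) : (S.map (linHom H n)).relIndex K ≠ 0 := by
  classical
  obtain ⟨y0, hy0⟩ := exists_wild hS hinf hX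
  obtain ⟨Z, hZ⟩ := exists_off hS
  let Y : Set H := {y | ∀ c, ¬ Tame S y c}
  have hYZ : ∀ y ∈ Y, ∃ g ∈ S, ∃ z ∈ Z, y = g.lin * z := by
    intro y hy
    by_contra hcon
    push Not at hcon
    refine hy 0 ⟨S, le_rfl, by rw [Subgroup.relIndex_self]; exact one_ne_zero, ?_⟩
    convert Set.finite_empty
    ext h
    constructor
    · rintro ⟨g, hg, -, hne⟩
      exact hne (hZ y hcon g hg)
    · intro h; exact h.elim
  have hconj : ∀ τ, (S.comap (MulAut.conj τ).toMonoidHom).relIndex S ≠ 0 → ∀ y ∈ Y, τ.lin * y ∈ Y := by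
    intro τ hτ y hy c hc
    exact hy _ (Tame.conj hτ hc)
  have hself : ∀ τ ∈ S, (S.comap (MulAut.conj τ).toMonoidHom).relIndex S ≠ 0 := by
    intro τ hτ
    have : S.comap (MulAut.conj τ).toMonoidHom = S := by
      ext g
      rw [Subgroup.mem_comap]
      show τ * g * τ⁻¹ ∈ S ↔ g ∈ S
      rw [S.mul_mem_cancel_right (S.inv_mem hτ), S.mul_mem_cancel_left hτ]
    rw [this, Subgroup.relIndex_self]
    exact one_ne_zero
  set A : Subgroup H := S.map (linHom H n) with hA
  have hYA : ∀ y ∈ Y, ∃ a ∈ A, ∃ z ∈ Z, y = a * z := by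
    intro y hy
    obtain ⟨g, hg, z, hz, h⟩ := hYZ y hy
    exact ⟨g.lin, ⟨g, hg, rfl⟩, z, hz, h⟩
  have hAY : ∀ a ∈ A, ∀ y ∈ Y, a * y ∈ Y := by
    rintro _ ⟨g, hg, rfl⟩ y hy
    exact hconj g (hself g hg) y hy
  have hpow : ∀ h : H, (∀ y ∈ Y, h * y ∈ Y) → ∃ m : ℕ, h ^ (m + 1) ∈ A := by
    intro h hh
    have h1 : ∀ j : ℕ, h ^ j * y0 ∈ Y := by
      intro j
      induction j with
      | zero => rw [pow_zero, one_mul]; exact hy0
      | succ j ih => rw [pow_succ', mul_assoc]; exact hh _ ih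
    choose a ha z hz haz using fun j => hYA _ (h1 j)
    obtain ⟨j, k, hjk, hzz⟩ := Finite.exists_ne_map_eq_of_infinite (fun j : ℕ => (⟨z j, hz j⟩ : Z))
    have hzz' : z j = z k := congrArg Subtype.val hzz
    wlog hlt : j < k generalizing j k
    · exact this k j hjk.symm hzz.symm hzz'.symm (lt_of_le_of_ne (not_lt.1 hlt) hjk.symm)
    refine ⟨k - j - 1, ?_⟩
    have h2 : h ^ (k - j - 1 + 1) = a k * (a j)⁻¹ := by
      have h3 : h ^ k * y0 = a k * (a j)⁻¹ * (h ^ j * y0) := by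
        rw [haz j, haz k, hzz', mul_assoc, inv_mul_cancel_left]
      rw [← mul_assoc] at h3
      have h4 := mul_right_cancel h3
      have h5 : h ^ k = h ^ (k - j - 1 + 1) * h ^ j := by
        rw [← pow_add]
        congr 1
        omega
      rw [h5] at h4
      exact mul_right_cancel h4
    rw [h2]
    exact A.mul_mem (ha k) (A.inv_mem (ha j))
  let M : Subgroup H :=
    { carrier := {h | ∀ y ∈ Y, h * y ∈ Y}
      one_mem' := fun y hy => by rw [one_mul]; exact hy
      mul_mem' := fun {a b} ha hb y hy => by rw [mul_assoc]; exact ha _ (hb y hy)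
      inv_mem' := fun {h} hh => by
        obtain ⟨m, hm⟩ := hpow h hh
        intro y hy
        have h1 : ∀ j : ℕ, ∀ y ∈ Y, h ^ j * y ∈ Y := by
          intro j
          induction j with
          | zero => intro y hy; rw [pow_zero, one_mul]; exact hy
          | succ j ih => intro y hy; rw [pow_succ', mul_assoc]; exact hh _ (ih y hy)
        have h2 : h⁻¹ = h ^ m * (h ^ (m + 1))⁻¹ := by
          rw [pow_succ', mul_inv_rev, mul_inv_cancel_left]
        rw [h2, mul_assoc]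
        exact h1 m _ (hAY _ (A.inv_mem hm) y hy) }
  have hKM : K ≤ M := by
    refine hK.trans (sup_le (fun a ha => hAY a ha) ?_)
    rw [Subgroup.closure_le]
    rintro _ ⟨τ, hτ, rfl⟩
    exact hconj τ (hT τ hτ)
  have hz : ∀ q : K ⧸ A.subgroupOf K, ∃ a ∈ A, ∃ z ∈ Z, ((q.out : K) : H)⁻¹ * y0 = a * z := fun q =>
    hYA _ (hKM (K.inv_mem q.out.2) y0 hy0)
  choose a ha z hz haz using hz
  have hinj : Function.Injective fun q => (⟨z q, hz q⟩ : Z) := by
    intro q r hqr
    have h1 : z q = z r := congrArg Subtype.val hqr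
    have h2 : ((q.out : K) : H)⁻¹ * ((r.out : K) : H) ∈ A := by
      have h3 : ((q.out : K) : H)⁻¹ * y0 = a q * (a r)⁻¹ * (((r.out : K) : H)⁻¹ * y0) := by
        rw [haz q, haz r, h1, mul_assoc, inv_mul_cancel_left]
      rw [← mul_assoc] at h3
      have h4 := mul_right_cancel h3
      rw [h4, mul_assoc, inv_mul_cancel, mul_one]
      exact A.mul_mem (ha q) (A.inv_mem (ha r))
    rw [← QuotientGroup.out_eq' q, ← QuotientGroup.out_eq' r, QuotientGroup.eq, Subgroup.mem_subgroupOf]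
    exact h2
  have : Finite (K ⧸ A.subgroupOf K) := Finite.of_injective _ hinj
  exact Subgroup.index_ne_zero_of_finite

end Pool.Agent.H5L
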