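import Pool.Agent.H5L.C1
import Pool.Agent.H5.Shap

/-!
Commensurated finitely generated subgroups of groups with vanishing second homology.
-/

set_option autoImplicit false

open MonoidAlgebra Pool.Agent.H5

namespace Pool.Agent.H5L

/-- derivations on a free group that kill finitely many relators -/
lemma exists_hom {H : Type} [Group H] {n : ℕ} {x : Fin n → H}
    (hV : ∀ s : Finset (Fin n → MonoidAlgebra ℤ H), (∀ k ∈ s, k ∈ relMod x) →
      ∃ θ : Matrix (Fin n) (Fin n) (MonoidAlgebra ℤ H), (∀ i, θ i ∈ relMod x) ∧ ∀ k ∈ s, Matrix.vecMul k θ = k)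
    (R : Finset (FreeGroup (Fin n))) (hR : ∀ r ∈ R, FreeGroup.lift x r = 1) :
    ∃ f : FreeGroup (Fin n) →* Aff H n, (∀ w, (f w).lin = FreeGroup.lift x w) ∧
      (∀ w, (f w).vec ⬝ᵥ colX x = el (FreeGroup.lift x w) - 1) ∧ ∀ r ∈ R, f r = 1 := by
  classical
  have hlin : ∀ (v : Fin n → Fin n → MonoidAlgebra ℤ H) (w : FreeGroup (Fin n)),
      (FreeGroup.lift (fun i => (⟨v i, x i⟩ : Aff H n)) w).lin = FreeGroup.lift x w := by
    intro v w
    have h : (linHom H n).comp (FreeGroup.lift fun i => (⟨v i, x i⟩ : Aff H n)) = FreeGroup.lift x := by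
      ext i
      simp [linHom_apply]
    exact DFunLike.congr_fun h w
  have hdot : ∀ (v : Fin n → Fin n → MonoidAlgebra ℤ H) (_ : ∀ i, v i ⬝ᵥ colX x = el (x i) - 1)
      (w : FreeGroup (Fin n)), (FreeGroup.lift (fun i => (⟨v i, x i⟩ : Aff H n)) w).vec ⬝ᵥ colX x =
        el (FreeGroup.lift x w) - 1 := by
    intro v hv w
    have hmul : ∀ a b : Aff H n, a.vec ⬝ᵥ colX x = el a.lin - 1 → b.vec ⬝ᵥ colX x = el b.lin - 1 →
        (a * b).vec ⬝ᵥ colX x = el (a * b).lin - 1 := by
      intro a b ha hb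
      rw [Aff.mul_vec, add_dotProduct, smul_dotProduct, ha, hb, Aff.mul_lin, el_mul, smul_eq_mul]
      noncomm_ring
    have hinv : ∀ a : Aff H n, a.vec ⬝ᵥ colX x = el a.lin - 1 → a⁻¹.vec ⬝ᵥ colX x = el a⁻¹.lin - 1 := by
      intro a ha
      show (-(el a.lin⁻¹ • a.vec)) ⬝ᵥ colX x = el a.lin⁻¹ - 1
      rw [neg_dotProduct, smul_dotProduct, ha, smul_eq_mul, mul_sub, ← el_mul, inv_mul_cancel, el_one, mul_one]
      noncomm_ring
    rw [← hlin v w]
    induction w using FreeGroup.induction_on with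
    | C1 =>
      rw [map_one]
      show (0 : Fin n → MonoidAlgebra ℤ H) ⬝ᵥ colX x = el (1 : H) - 1
      rw [zero_dotProduct, el_one, sub_self]
    | of i =>
      rw [FreeGroup.lift_apply_of]
      exact hv i
    | inv_of i h =>
      rw [map_inv]
      exact hinv _ h
    | mul a b ha hb =>
      rw [map_mul]
      exact hmul _ _ ha hb
  let f0 : FreeGroup (Fin n) →* Aff H n := FreeGroup.lift fun i => ⟨Pi.single i 1, x i⟩
  have hf0 : ∀ w, (f0 w).vec ⬝ᵥ colX x = el (FreeGroup.lift x w) - 1 :=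
    hdot (fun i => Pi.single i 1) fun i => by rw [single_dotProduct, one_mul, colX]
  obtain ⟨θ, hθ, hfix⟩ := hV (R.image fun r => (f0 r).vec) (by
    intro k hk
    obtain ⟨r, hr, rfl⟩ := Finset.mem_image.1 hk
    show (f0 r).vec ⬝ᵥ colX x = 0
    rw [hf0, hR r hr, el_one, sub_self])
  let f : FreeGroup (Fin n) →* Aff H n := FreeGroup.lift fun i => ⟨(1 - θ) i, x i⟩
  have hff : ∀ w, (f w).vec = Matrix.vecMul (f0 w).vec (1 - θ) := by
    let g : Aff H n →* Aff H n :=
      { toFun := fun a => ⟨Matrix.vecMul a.vec (1 - θ), a.lin⟩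
        map_one' := by
          ext1
          · show Matrix.vecMul (0 : Fin n → MonoidAlgebra ℤ H) (1 - θ) = 0
            rw [Matrix.zero_vecMul]
          · rfl
        map_mul' := by
          intro a b
          ext1
          · show Matrix.vecMul (a.vec + el a.lin • b.vec) (1 - θ) =
              Matrix.vecMul a.vec (1 - θ) + el a.lin • Matrix.vecMul b.vec (1 - θ)
            rw [Matrix.add_vecMul, Matrix.smul_vecMul]
          · rfl }
    have h : f = g.comp f0 := by
      ext i : 1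
      simp only [f, f0, MonoidHom.comp_apply, FreeGroup.lift_apply_of]
      show (⟨(1 - θ) i, x i⟩ : Aff H n) = ⟨Matrix.vecMul (Pi.single i 1) (1 - θ), x i⟩
      rw [Matrix.single_one_vecMul]
      rfl
    intro w
    rw [h]
    rfl
  refine ⟨f, hlin _, hdot _ fun i => ?_, fun r hr => ?_⟩
  · show ((1 - θ) i) ⬝ᵥ colX x = el (x i) - 1
    have h1 : (1 - θ) i = Pi.single i 1 - θ i := by
      funext j
      rw [Matrix.sub_apply, Pi.sub_apply, Matrix.one_apply, Pi.single_apply]
      simp [eq_comm]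
    rw [h1, sub_dotProduct, single_dotProduct, one_mul, show θ i ⬝ᵥ colX x = 0 from hθ i, sub_zero, colX]
  · ext1
    · rw [hff, Matrix.vecMul_sub, Matrix.vecMul_one, hfix _ (Finset.mem_image_of_mem _ hr), sub_self]
      rfl
    · rw [show (f r).lin = FreeGroup.lift x r from hlin _ r, hR r hr]
      rfl

/-- no torsion -/
lemma torsionfree {H : Type} [Group H] (hH : ∀ A : Rep.{0} ℤ H, Subsingleton (groupHomology A 2)) (h : H)
    (hh : IsOfFinOrder h) : h = 1 := by
  classical
  let C : Subgroup H := Subgroup.zpowers h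
  let g : C := ⟨h, Subgroup.mem_zpowers h⟩
  have hg : ∀ c : C, ∃ j : ℕ, c = g ^ j := by
    rintro ⟨c, hc⟩
    obtain ⟨j, hj⟩ := (Subgroup.mem_zpowers_iff.1 hc)
    have : c ∈ Submonoid.powers h := by
      rw [hh.mem_powers_iff_mem_zpowers]
      exact hc
    obtain ⟨j, hj⟩ := this
    exact ⟨j, Subtype.ext hj.symm⟩
  have hgo : IsOfFinOrder g := by
    have := hh
    rwa [← Submonoid.isOfFinOrder_coe (x := g)] at *
  set m := orderOf g with hm
  have hm0 : 0 < m := hgo.orderOf_pos
  let x : Fin 1 → C := fun _ => g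
  have hinj : Function.Injective x := fun i j _ => Subsingleton.elim i j
  have hx : Subgroup.closure (Set.range x) = ⊤ := by
    rw [eq_top_iff]
    intro c _
    obtain ⟨j, rfl⟩ := hg c
    have h0 : g ∈ Subgroup.closure (Set.range x) := Subgroup.subset_closure ⟨0, rfl⟩
    exact Subgroup.pow_mem _ h0 j
  let N : MonoidAlgebra ℤ C := ∑ j ∈ Finset.range m, el (g ^ j)
  have hN : N * (el g - 1) = 0 := by
    rw [mul_sub, mul_one, Finset.sum_mul]
    have h1 : ∀ j, el (g ^ j) * el g = el (g ^ (j + 1)) := fun j => by rw [← el_mul, pow_succ]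
    rw [Finset.sum_congr rfl fun j _ => h1 j, ← Finset.sum_sub_distrib,
      Finset.sum_range_sub (fun j => el (g ^ j)), pow_orderOf_eq_one, pow_zero, sub_self]
  obtain ⟨θ, hθ, hfix⟩ := villamayor (homology_subgroup hH C) hinj hx {fun _ => N} (by
    intro k hk
    rw [Finset.mem_singleton] at hk
    subst hk
    show (fun _ : Fin 1 => N) ⬝ᵥ colX x = 0
    rw [dotProduct, Fin.sum_univ_one]
    exact hN)
  have h1 : θ 0 0 * (el g - 1) = 0 := by
    have h := hθ 0
    have h' : θ 0 ⬝ᵥ colX x = 0 := h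
    rw [dotProduct, Fin.sum_univ_one] at h'
    exact h'
  have h2 : N * θ 0 0 = N := by
    have h := congrFun (hfix _ (Finset.mem_singleton_self _)) 0
    rw [Matrix.vecMul, dotProduct, Fin.sum_univ_one] at h
    exact h
  have h3 : ∀ c : C, (θ 0 0).coeff (c * g) = (θ 0 0).coeff c := by
    intro c
    have h := congrArg (fun r : MonoidAlgebra ℤ C => r.coeff (c * g)) h1
    rw [mul_sub, mul_one] at h
    simp only [MonoidAlgebra.coeff_sub, Finsupp.sub_apply] at h
    have h' : (θ 0 0 * el g).coeff (c * g) = (θ 0 0).coeff c := by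
      show (θ 0 0 * MonoidAlgebra.single g 1).coeff (c * g) = _
      rw [MonoidAlgebra.coeff_mul_single_apply, mul_one, mul_inv_cancel_right]
    rw [h'] at h
    have h0 : (0 : MonoidAlgebra ℤ C).coeff (c * g) = 0 := rfl
    rw [h0] at h
    omega
  have h4 : ∀ j : ℕ, (θ 0 0).coeff (g ^ j) = (θ 0 0).coeff 1 := by
    intro j
    induction j with
    | zero => rw [pow_zero]
    | succ j ih => rw [pow_succ, h3, ih]
  have h5 : (N * θ 0 0).coeff 1 = m * (θ 0 0).coeff 1 := by
    rw [Finset.sum_mul, MonoidAlgebra.coeff_sum, Finsupp.finset_sum_apply]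
    rw [Finset.sum_congr rfl (g := fun _ => (θ 0 0).coeff 1), Finset.sum_const, Finset.card_range, nsmul_eq_mul]
    intro j _
    rw [coeff_el_mul, mul_one]
    obtain ⟨k, hk⟩ := hg (g ^ j)⁻¹
    rw [hk, h4]
  have h6 : N.coeff 1 = 1 := by
    rw [MonoidAlgebra.coeff_sum, Finsupp.finset_sum_apply, Finset.sum_eq_single 0]
    · rw [pow_zero]
      show (MonoidAlgebra.single (1 : C) (1 : ℤ)).coeff 1 = 1
      rw [MonoidAlgebra.coeff_single_apply, if_pos rfl]
    · intro j hj hj0
      show (MonoidAlgebra.single (g ^ j) (1 : ℤ)).coeff 1 = 0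
      rw [MonoidAlgebra.coeff_single_apply, if_neg]
      intro h
      have := orderOf_dvd_of_pow_eq_one h
      exact hj0 (Nat.eq_zero_of_dvd_of_lt this (Finset.mem_range.1 hj))
    · intro h
      exact absurd (Finset.mem_range.2 hm0) h
  rw [h2, h6] at h5
  have h7 : (m : ℤ) ∣ 1 := ⟨_, h5⟩
  have h8 : m = 1 := by
    have := Int.eq_one_of_dvd_one (by positivity) h7
    exact_mod_cast this
  have h9 : g = 1 := orderOf_eq_one_iff.1 h8
  exact congrArg Subtype.val h9

/-- A nontrivial finitely generated subgroup `A` has finite index in a group generated by `A` and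
finitely many elements `t` for which `A ∩ t⁻¹ A t` has finite index in `A`. -/
theorem comm_top {H : Type} [Group H] (hH : ∀ A : Rep.{0} ℤ H, Subsingleton (groupHomology A 2)) (hfg : Group.FG H)
    {A : Subgroup H} (hA : A.FG) (hne : A ≠ ⊥) (T : Finset H)
    (hT : ∀ t ∈ T, (A.comap (MulAut.conj t).toMonoidHom).relIndex A ≠ 0)
    (hgen : A ⊔ Subgroup.closure (T : Set H) = ⊤) : A.index ≠ 0 := by
  classical
  obtain ⟨S, hS⟩ := Group.fg_def.1 hfg
  let x : Fin S.card → H := fun i => (S.equivFin.symm i : H)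
  have hinj : Function.Injective x := fun i j hij =>
    S.equivFin.symm.injective (Subtype.ext hij)
  have hrange : Set.range x = S := by
    ext g
    constructor
    · rintro ⟨i, rfl⟩; exact (S.equivFin.symm i).2
    · intro hg; exact ⟨S.equivFin ⟨g, hg⟩, by simp [x]⟩
  have hx : Subgroup.closure (Set.range x) = ⊤ := by rw [hrange]; exact hS
  let π : FreeGroup (Fin S.card) →* H := FreeGroup.lift x
  have hπ : Function.Surjective π := by
    rw [← MonoidHom.range_eq_top, FreeGroup.range_lift_eq_closure]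
    exact hx
  choose σ hσ using hπ
  obtain ⟨a, ha⟩ := hA
  let FA : Subgroup (FreeGroup (Fin S.card)) := Subgroup.closure (σ '' (a : Set H))
  have hFA : FA.map π = A := by
    rw [MonoidHom.map_closure, Set.image_image]
    simp only [hσ, Set.image_id']
    exact ha
  have hFAfg : FA.FG := ⟨a.image σ, by rw [Finset.coe_image]⟩
  let Ft : H → Subgroup (FreeGroup (Fin S.card)) := fun t =>
    ((A.comap (MulAut.conj t).toMonoidHom).comap π) ⊓ FA
  have hFt : ∀ t ∈ T, (Ft t).relIndex FA ≠ 0 := by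
    intro t ht
    rw [Subgroup.inf_relIndex_right, Subgroup.relIndex_comap, hFA]
    exact hT t ht
  have hFtfg : ∀ t ∈ T, (Ft t).FG := by
    intro t ht
    have h1 : ((Ft t).subgroupOf FA).FiniteIndex := ⟨hFt t ht⟩
    have h2 : Group.FG FA := (Group.fg_iff_subgroup_fg FA).2 hFAfg
    have h3 : Group.FG ((Ft t).subgroupOf FA) := Subgroup.fg_of_index_ne_zero _
    have h4 : Group.FG (Ft t) := Group.fg_of_surjective
      (f := (Subgroup.subgroupOfEquivOfLe (inf_le_right : Ft t ≤ FA)).toMonoidHom)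
      (Subgroup.subgroupOfEquivOfLe (inf_le_right : Ft t ≤ FA)).surjective
    exact (Group.fg_iff_subgroup_fg _).1 h4
  have hgenT : ∀ t : H, ∃ G : Finset (FreeGroup (Fin S.card)), t ∈ T → Subgroup.closure (G : Set _) = Ft t := by
    intro t
    by_cases ht : t ∈ T
    · obtain ⟨G, hG⟩ := hFtfg t ht
      exact ⟨G, fun _ => hG⟩
    · exact ⟨∅, fun h => absurd h ht⟩
  choose G hG using hgenT
  have hw : ∀ (t : H) (s : FreeGroup (Fin S.card)), ∃ w ∈ FA, t ∈ T → s ∈ G t → π w = t * π s * t⁻¹ := by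
    intro t s
    by_cases h : t ∈ T ∧ s ∈ G t
    · have h1 : s ∈ Ft t := by
        rw [← hG t h.1]
        exact Subgroup.subset_closure h.2
      have h2 : t * π s * t⁻¹ ∈ A := h1.1
      rw [← hFA] at h2
      obtain ⟨w, hw, hw'⟩ := h2
      exact ⟨w, hw, fun _ _ => hw'⟩
    · exact ⟨1, FA.one_mem, fun h1 h2 => absurd ⟨h1, h2⟩ h⟩
  choose w hwF hw using hw
  let R : Finset (FreeGroup (Fin S.card)) := T.biUnion fun t => (G t).image fun s => σ t * s * (σ t)⁻¹ * (w t s)⁻¹
  obtain ⟨f, hlin, hX, hR⟩ := exists_hom (villamayor hH hinj hx) R (by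
    intro r hr
    obtain ⟨t, ht, hr⟩ := Finset.mem_biUnion.1 hr
    obtain ⟨s, hs, rfl⟩ := Finset.mem_image.1 hr
    show π (σ t * s * (σ t)⁻¹ * (w t s)⁻¹) = 1
    rw [map_mul, map_mul, map_mul, map_inv, map_inv, hσ, hw t s ht hs, mul_inv_cancel])
  let Sg : Subgroup (Aff H S.card) := FA.map f
  have hSg : Sg.FG := by
    obtain ⟨s, hs⟩ := hFAfg
    refine ⟨s.image f, ?_⟩
    rw [Finset.coe_image, ← MonoidHom.map_closure, hs]
  have hcomp : (linHom H S.card).comp f = π := by
    ext i
    exact hlin _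
  have hmap : Sg.map (linHom H S.card) = A := by
    rw [Subgroup.map_map, hcomp, hFA]
  have hAinf : (A : Set H).Infinite := by
    obtain ⟨b, hb⟩ := Subgroup.ne_bot_iff_exists_ne_one.1 hne
    have hb1 : ¬ IsOfFinOrder (b : H) := fun h => hb (Subtype.ext (torsionfree hH _ h))
    refine Set.infinite_of_injective_forall_mem (f := fun j : ℕ => (b : H) ^ j)
      (injective_pow_iff_not_isOfFinOrder.2 hb1) fun j => A.pow_mem b.2 j
  have hinf : {h : H | ∃ g ∈ Sg, g.lin = h}.Infinite := by
    have : {h : H | ∃ g ∈ Sg, g.lin = h} = A := by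
      rw [← hmap]
      rfl
    rw [this]
    exact hAinf
  have hXS : ∀ g ∈ Sg, g.vec ⬝ᵥ colX x = el g.lin - 1 := by
    rintro _ ⟨w, -, rfl⟩
    rw [hX, hlin]
  have hTT : ∀ τ ∈ (fun t => f (σ t)) '' (T : Set H), (Sg.comap (MulAut.conj τ).toMonoidHom).relIndex Sg ≠ 0 := by
    rintro _ ⟨t, ht, rfl⟩
    have h1 : Ft t ≤ (Sg.comap (MulAut.conj (f (σ t))).toMonoidHom).comap f := by
      rw [← hG t ht, Subgroup.closure_le]
      intro s hs
      show f (σ t) * f s * (f (σ t))⁻¹ ∈ Sg
      have h2 := hR (σ t * s * (σ t)⁻¹ * (w t s)⁻¹)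
        (Finset.mem_biUnion.2 ⟨t, ht, Finset.mem_image_of_mem _ hs⟩)
      rw [map_mul, map_mul, map_mul, map_inv, map_inv, mul_inv_eq_one] at h2
      rw [h2]
      exact ⟨w t s, hwF t s, rfl⟩
    have h2 : ((Sg.comap (MulAut.conj (f (σ t))).toMonoidHom).comap f).relIndex FA ≠ 0 := by
      intro h3
      have h4 := Subgroup.relIndex_dvd_of_le_left FA h1
      rw [h3] at h4
      exact hFt t ht (Nat.eq_zero_of_zero_dvd h4)
    rwa [Subgroup.relIndex_comap] at h2
  have h := comm_index hSg hinf hXS hTT (K := ⊤) (by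
    rw [hmap, Set.image_image]
    have : (fun t => linHom H S.card (f (σ t))) = id := by
      funext t
      rw [linHom_apply, hlin]
      exact hσ t
    rw [this, Set.image_id, hgen])
  rwa [hmap, Subgroup.relIndex_top_right] at h

end Pool.Agent.H5L
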