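import Pool.Agent.H5L.C2

/-!
Commensurated finitely generated subgroups, statement inside an ambient group.
-/

set_option autoImplicit false

open Pool.Agent.H5

namespace Pool.Agent.H5L

theorem comm_ambient {G : Type} [Group G] (hG : ∀ A : Rep.{0} ℤ G, Subsingleton (groupHomology A 2))
    {A : Subgroup G} (hA : A.FG) (hne : A ≠ ⊥) (T : Finset G)
    (hT : ∀ t ∈ T, (A.comap (MulAut.conj t).toMonoidHom).relIndex A ≠ 0) :
    A.relIndex (A ⊔ Subgroup.closure (T : Set G)) ≠ 0 := by
  classical
  set K : Subgroup G := A ⊔ Subgroup.closure (T : Set G) with hK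
  have hAK : A ≤ K := le_sup_left
  have hTK : ∀ t ∈ T, t ∈ K := fun t ht => (le_sup_right : Subgroup.closure (T : Set G) ≤ K) (Subgroup.subset_closure ht)
  have hKfg : K.FG := by
    obtain ⟨a, ha⟩ := hA
    refine ⟨a ∪ T, ?_⟩
    rw [Finset.coe_union, Subgroup.closure_union, ha]
  let T' : Finset K := T.attach.image fun t => ⟨t.1, hTK t.1 t.2⟩
  have hgen : A.subgroupOf K ⊔ Subgroup.closure (T' : Set K) = ⊤ := by
    apply Subgroup.map_injective K.subtype_injective
    rw [Subgroup.map_sup, MonoidHom.map_closure, Subgroup.subgroupOf_map_subtype, inf_eq_left.2 hAK]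
    have h1 : K.subtype '' (T' : Set K) = (T : Set G) := by
      ext g
      constructor
      · rintro ⟨t, ht, rfl⟩
        obtain ⟨s, -, rfl⟩ := Finset.mem_image.1 ht
        exact s.2
      · intro hg
        exact ⟨⟨g, hTK g hg⟩, Finset.mem_image.2 ⟨⟨g, hg⟩, Finset.mem_attach _ _, rfl⟩, rfl⟩
    rw [h1, ← hK, ← MonoidHom.range_eq_map, Subgroup.range_subtype]
  have hfg : (A.subgroupOf K).FG := by
    have h2 : Group.FG A := (Group.fg_iff_subgroup_fg A).2 hA
    have h4 : Group.FG (A.subgroupOf K) := Group.fg_of_surjective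
      (f := (Subgroup.subgroupOfEquivOfLe hAK).symm.toMonoidHom) (Subgroup.subgroupOfEquivOfLe hAK).symm.surjective
    exact (Group.fg_iff_subgroup_fg _).1 h4
  have hne' : A.subgroupOf K ≠ ⊥ := by
    intro h
    apply hne
    have := congrArg (Subgroup.map K.subtype) h
    rwa [Subgroup.subgroupOf_map_subtype, inf_eq_left.2 hAK, Subgroup.map_bot] at this
  have h := comm_top (homology_subgroup hG K) ((Group.fg_iff_subgroup_fg K).2 hKfg) hfg hne' T' (by
    intro t ht
    obtain ⟨s, -, rfl⟩ := Finset.mem_image.1 ht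
    have h1 : (A.subgroupOf K).comap (MulAut.conj (⟨s.1, hTK s.1 s.2⟩ : K)).toMonoidHom =
        (A.comap (MulAut.conj s.1).toMonoidHom).subgroupOf K := by
      ext g
      rfl
    rw [h1, Subgroup.relIndex_subgroupOf hAK]
    exact hT s.1 s.2) hgen
  exact h

end Pool.Agent.H5L
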