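import Mathlib

/-!
Square summable functions on `H × ι`, right translations, orthogonal families from a positive cone.
-/

set_option autoImplicit false

open scoped ENNReal RealInnerProductSpace

namespace Pool.Agent.H5L

variable {H : Type} [Group H] {ι : Type}

/-- square summable functions -/
abbrev L2 (H ι : Type) := lp (fun _ : H × ι => ℝ) 2

/-- the index permutation -/
def ee (ι : Type) (k : H) : H × ι ≃ H × ι := Equiv.prodCongr (Equiv.mulRight k⁻¹) (Equiv.refl ι)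

lemma ee_apply (k : H) (p : H × ι) : ee ι k p = (p.1 * k⁻¹, p.2) := rfl

lemma memlp_iff (f : H × ι → ℝ) : Memℓp f 2 ↔ Summable fun p => f p ^ 2 := by
  rw [memℓp_gen_iff (by norm_num)]
  refine summable_congr fun p => ?_
  rw [Real.norm_eq_abs, show (2 : ℝ≥0∞).toReal = ((2 : ℕ) : ℝ) by norm_num, Real.rpow_natCast, sq_abs]

/-- right translation: value of `v` at `(u k⁻¹, i)` -/
noncomputable def rt (k : H) : L2 H ι →ₗᵢ[ℝ] L2 H ι :=
  LinearMap.isometryOfInner
    { toFun := fun v => ⟨fun p => v (ee ι k p), (memlp_iff _).2 ((ee ι k).summable_iff.2 ((memlp_iff _).1 (lp.memℓp v)))⟩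
      map_add' := fun v w => rfl
      map_smul' := fun c v => rfl }
    (by
      intro v w
      rw [lp.inner_eq_tsum, lp.inner_eq_tsum]
      exact (ee ι k).tsum_eq fun p => ⟪v p, w p⟫)

lemma rt_apply (k : H) (v : L2 H ι) (p : H × ι) : rt k v p = v (p.1 * k⁻¹, p.2) := rfl

lemma rt_mul (g k : H) (v : L2 H ι) : rt (g * k) v = rt k (rt g v) := by
  ext p
  rw [rt_apply, rt_apply, rt_apply, mul_inv_rev, mul_assoc]

lemma rt_one (v : L2 H ι) : rt 1 v = v := by
  ext p
  rw [rt_apply, inv_one, mul_one]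

lemma rt_inner (k : H) (v w : L2 H ι) : ⟪rt k v, rt k w⟫ = ⟪v, w⟫ := (rt k).inner_map_map v w

lemma rt_inner_left (k : H) (v w : L2 H ι) : ⟪rt k v, w⟫ = ⟪v, rt k⁻¹ w⟫ := by
  rw [← rt_inner k⁻¹, ← rt_mul, mul_inv_cancel, rt_one]

lemma rt_inner_right (k : H) (v w : L2 H ι) : ⟪v, rt k w⟫ = ⟪rt k⁻¹ v, w⟫ := by
  rw [real_inner_comm, rt_inner_left, real_inner_comm]

lemma rt_inner_two (g k : H) (v w : L2 H ι) : ⟪rt g v, rt k w⟫ = ⟪v, rt (k * g⁻¹) w⟫ := by
  rw [rt_inner_left, ← rt_mul]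

/-- the vector concentrated at one point -/
noncomputable def dl [DecidableEq H] [DecidableEq ι] (p : H × ι) : L2 H ι := lp.single 2 p (1 : ℝ)

lemma inner_dl [DecidableEq H] [DecidableEq ι] (p : H × ι) (v : L2 H ι) : ⟪v, dl p⟫ = v p := by
  unfold dl
  rw [lp.inner_single_right]
  simp

/-- the positive cone of a total order of the group -/
structure Cone (P : H → Prop) : Prop where
  mul : ∀ a b, P a → P b → P (a * b)
  tot : ∀ a, a ≠ 1 → P a ∨ P a⁻¹
  inv : ∀ a, P a → ¬ P a⁻¹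

lemma Cone.one {P : H → Prop} (hP : Cone P) : ¬ P 1 := fun h => hP.inv 1 h (by rwa [inv_one])

/-- least element for the order with the right translations -/
lemma Cone.exists_min {P : H → Prop} (hP : Cone P) (s : Finset H) (hs : s.Nonempty) :
    ∃ t ∈ s, ∀ h ∈ s, h = t ∨ P (h * t⁻¹) := by
  classical
  induction s using Finset.induction_on with
  | empty => exact absurd hs Finset.not_nonempty_empty
  | insert x s hx ih =>
    rcases s.eq_empty_or_nonempty with rfl | hne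
    · exact ⟨x, Finset.mem_insert_self _ _, fun h hh => Or.inl (by simpa using hh)⟩
    · obtain ⟨t, ht, hmin⟩ := ih hne
      have hxt : x * t⁻¹ ≠ 1 := by
        intro h
        rw [mul_inv_eq_one] at h
        exact hx (h ▸ ht)
      rcases hP.tot _ hxt with h1 | h1
      · refine ⟨t, Finset.mem_insert_of_mem ht, fun h hh => ?_⟩
        rcases Finset.mem_insert.1 hh with rfl | hh
        · exact Or.inr h1
        · exact hmin h hh
      · rw [mul_inv_rev, inv_inv] at h1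
        refine ⟨x, Finset.mem_insert_self _ _, fun h hh => ?_⟩
        rcases Finset.mem_insert.1 hh with rfl | hh
        · exact Or.inl rfl
        · rcases hmin h hh with rfl | h2
          · exact Or.inr h1
          · refine Or.inr ?_
            have h3 := hP.mul _ _ h2 h1
            rwa [mul_assoc, inv_mul_cancel_left] at h3

/-- the closed span of all translates -/
noncomputable def Cl {m : ℕ} (y : Fin m → L2 H ι) : Submodule ℝ (L2 H ι) :=
  (Submodule.span ℝ {v | ∃ g l, v = rt g (y l)}).topologicalClosure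

/-- the closed span of the later translates -/
noncomputable def Mi (P : H → Prop) {m : ℕ} (y : Fin m → L2 H ι) (i : Fin m) : Submodule ℝ (L2 H ι) :=
  (Submodule.span ℝ {v | (∃ s l, P s ∧ v = rt s (y l)) ∨ ∃ l, l < i ∧ v = y l}).topologicalClosure

lemma mem_Mi {P : H → Prop} {m : ℕ} {y : Fin m → L2 H ι} {i : Fin m} {v : L2 H ι}
    (h : (∃ s l, P s ∧ v = rt s (y l)) ∨ ∃ l, l < i ∧ v = y l) : v ∈ Mi P y i :=
  Submodule.le_topologicalClosure _ (Submodule.subset_span h)

/-- a closed submodule that contains the images of the generators contains the image of the closed span -/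
lemma map_closure_le {S : Set (L2 H ι)} {W : Submodule ℝ (L2 H ι)} (hW : IsClosed (W : Set (L2 H ι))) (k : H)
    (h : ∀ v ∈ S, rt k v ∈ W) {v : L2 H ι} (hv : v ∈ (Submodule.span ℝ S).topologicalClosure) : rt k v ∈ W := by
  have h1 : Submodule.span ℝ S ≤ W.comap (rt k).toLinearMap := Submodule.span_le.2 fun v hv => h v hv
  have h2 : IsClosed ((W.comap (rt k).toLinearMap : Submodule ℝ (L2 H ι)) : Set (L2 H ι)) :=
    hW.preimage (rt k).continuous
  exact Submodule.topologicalClosure_minimal _ h1 h2 hv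

lemma closure_le {S : Set (L2 H ι)} {W : Submodule ℝ (L2 H ι)} (hW : IsClosed (W : Set (L2 H ι)))
    (h : ∀ v ∈ S, v ∈ W) : (Submodule.span ℝ S).topologicalClosure ≤ W :=
  Submodule.topologicalClosure_minimal _ (Submodule.span_le.2 fun v hv => h v hv) hW

lemma Mi_closed {P : H → Prop} {m : ℕ} (y : Fin m → L2 H ι) (i : Fin m) : IsClosed (Mi P y i : Set (L2 H ι)) :=
  Submodule.isClosed_topologicalClosure _

lemma Cl_closed {m : ℕ} (y : Fin m → L2 H ι) : IsClosed (Cl y : Set (L2 H ι)) :=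
  Submodule.isClosed_topologicalClosure _

lemma Mi_mono {P : H → Prop} {m : ℕ} (y : Fin m → L2 H ι) {i l : Fin m} (h : l ≤ i) : Mi P y l ≤ Mi P y i := by
  refine closure_le (Mi_closed y i) ?_
  rintro v (⟨s, l', hs, rfl⟩ | ⟨l', hl, rfl⟩)
  · exact mem_Mi (Or.inl ⟨s, l', hs, rfl⟩)
  · exact mem_Mi (Or.inr ⟨l', hl.trans_le h, rfl⟩)

lemma Mi_le_Cl {P : H → Prop} {m : ℕ} (y : Fin m → L2 H ι) (i : Fin m) : Mi P y i ≤ Cl y := by
  refine closure_le (Cl_closed y) ?_
  rintro v (⟨s, l', hs, rfl⟩ | ⟨l', hl, rfl⟩)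
  · exact Submodule.le_topologicalClosure _ (Submodule.subset_span ⟨s, l', rfl⟩)
  · exact Submodule.le_topologicalClosure _ (Submodule.subset_span ⟨1, l', (rt_one _).symm⟩)

/-- orthogonal translates -/
theorem exists_innovation {P : H → Prop} (hP : Cone P) {m : ℕ} (y r : Fin m → L2 H ι)
    (h0 : ∀ i, ⟪r i, y i⟫ ≠ 0) (h1 : ∀ i s l, P s → ⟪r i, rt s (y l)⟫ = 0) (h2 : ∀ i l, l < i → ⟪r i, y l⟫ = 0) :
    ∃ z : Fin m → L2 H ι, (∀ i, z i ≠ 0) ∧ (∀ i, z i ∈ Cl y) ∧
      ∀ i l g, (g ≠ 1 ∨ i ≠ l) → ⟪z i, rt g (z l)⟫ = 0 := by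
  classical
  have hcomp : ∀ i, CompleteSpace (Mi P y i) := fun i => (Mi_closed y i).completeSpace_coe
  let z : Fin m → L2 H ι := fun i => y i - (Mi P y i).starProjection (y i)
  have hz : ∀ i, z i = y i - (Mi P y i).starProjection (y i) := fun i => rfl
  have hperp : ∀ i v, v ∈ Mi P y i → ⟪z i, v⟫ = 0 := by
    intro i v hv
    exact Submodule.starProjection_inner_eq_zero _ _ hv
  have hproj : ∀ i, (Mi P y i).starProjection (y i) ∈ Mi P y i := fun i => Submodule.starProjection_apply_mem _ _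
  -- the functional
  have hr : ∀ i v, v ∈ Mi P y i → ⟪r i, v⟫ = 0 := by
    intro i v hv
    have hc : IsClosed ((LinearMap.ker (innerSL ℝ (r i)).toLinearMap : Submodule ℝ (L2 H ι)) : Set (L2 H ι)) :=
      (innerSL ℝ (r i)).isClosed_ker
    have h3 : Mi P y i ≤ LinearMap.ker (innerSL ℝ (r i)).toLinearMap := by
      refine closure_le hc ?_
      rintro v (⟨s, l', hs, rfl⟩ | ⟨l', hl, rfl⟩)
      · exact h1 i s l' hs
      · exact h2 i l' hl
    exact h3 hv
  -- translates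
  have hy : ∀ i l s, P s → rt s (y l) ∈ Mi P y i := fun i l s hs => mem_Mi (Or.inl ⟨s, l, hs, rfl⟩)
  have hM : ∀ i l s, P s → ∀ v ∈ Mi P y l, rt s v ∈ Mi P y i := by
    intro i l s hs v hv
    refine map_closure_le (Mi_closed y i) s ?_ hv
    rintro v (⟨u, l', hu, rfl⟩ | ⟨l', hl, rfl⟩)
    · rw [← rt_mul]
      exact hy i l' _ (hP.mul _ _ hu hs)
    · exact hy i l' s hs
  have hzs : ∀ i l s, P s → rt s (z l) ∈ Mi P y i := by
    intro i l s hs
    rw [hz, map_sub]
    exact Submodule.sub_mem _ (hy i l s hs) (hM i l s hs _ (hproj l))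
  have hzl : ∀ i l, l < i → z l ∈ Mi P y i := by
    intro i l hl
    rw [hz]
    exact Submodule.sub_mem _ (mem_Mi (Or.inr ⟨l, hl, rfl⟩)) (Mi_mono y hl.le (hproj l))
  refine ⟨z, fun i hi => ?_, fun i => ?_, fun i l g hg => ?_⟩
  · have h3 : y i = (Mi P y i).starProjection (y i) := by
      rw [hz, sub_eq_zero] at hi
      exact hi
    exact h0 i (by rw [h3]; exact hr i _ (hproj i))
  · rw [hz]
    refine Submodule.sub_mem _ ?_ (Mi_le_Cl y i (hproj i))
    exact Submodule.le_topologicalClosure _ (Submodule.subset_span ⟨1, i, (rt_one _).symm⟩)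
  · by_cases h3 : g = 1
    · subst h3
      rw [rt_one]
      have h4 : i ≠ l := hg.resolve_left fun h => h rfl
      rcases lt_or_gt_of_ne h4 with h5 | h5
      · rw [real_inner_comm]
        exact hperp l _ (hzl l i h5)
      · exact hperp i _ (hzl i l h5)
    · rcases hP.tot g h3 with h4 | h4
      · exact hperp i _ (hzs i l g h4)
      · rw [rt_inner_right, real_inner_comm]
        exact hperp l _ (hzs l i _ h4)

/-- the trace inequality -/
theorem trace_le [DecidableEq H] [Fintype ι] [DecidableEq ι] {m : ℕ} {z : Fin m → L2 H ι} (hz : ∀ i, z i ≠ 0)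
    (ho : ∀ i l g, (g ≠ 1 ∨ i ≠ l) → ⟪z i, rt g (z l)⟫ = 0) (x : ι → L2 H ι)
    (hx : ∀ j i g, ⟪dl (1, j) - x j, rt g (z i)⟫ = 0) : (m : ℝ) ≤ ∑ j, ‖x j‖ ^ 2 := by
  let e : H × Fin m → L2 H ι := fun p => (‖z p.2‖⁻¹ : ℝ) • rt p.1 (z p.2)
  have hn : ∀ i, ‖z i‖ ≠ 0 := fun i => norm_ne_zero_iff.2 (hz i)
  have he : Orthonormal ℝ e := by
    constructor
    · intro p
      show ‖(‖z p.2‖⁻¹ : ℝ) • rt p.1 (z p.2)‖ = 1
      rw [norm_smul, norm_inv, norm_norm, (rt p.1).norm_map, inv_mul_cancel₀ (hn _)]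
    · intro p q hpq
      show ⟪(‖z p.2‖⁻¹ : ℝ) • rt p.1 (z p.2), (‖z q.2‖⁻¹ : ℝ) • rt q.1 (z q.2)⟫ = 0
      rw [real_inner_smul_left, real_inner_smul_right, rt_inner_two, ho, mul_zero, mul_zero]
      by_contra h
      push Not at h
      obtain ⟨h1, h2⟩ := h
      rw [mul_inv_eq_one] at h1
      exact hpq (Prod.ext h1.symm h2)
  -- Bessel
  have hb : ∀ j, ∑' p, ⟪e p, x j⟫ ^ 2 ≤ ‖x j‖ ^ 2 := by
    intro j
    have h := he.tsum_inner_products_le (x j)
    refine le_trans (le_of_eq ?_) h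
    refine tsum_congr fun p => ?_
    rw [Real.norm_eq_abs, sq_abs]
  have hval : ∀ j p, ⟪e p, x j⟫ = ‖z p.2‖⁻¹ * z p.2 (p.1⁻¹, j) := by
    intro j p
    show ⟪(‖z p.2‖⁻¹ : ℝ) • rt p.1 (z p.2), x j⟫ = _
    rw [real_inner_smul_left]
    congr 1
    have h1 := hx j p.2 p.1
    rw [inner_sub_left, sub_eq_zero] at h1
    rw [real_inner_comm, ← h1, real_inner_comm, inner_dl, rt_apply, one_mul]
  have hsum : ∀ i, HasSum (fun q : H × ι => (z i q) ^ 2) (‖z i‖ ^ 2) := by
    intro i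
    have h := lp.hasSum_inner (𝕜 := ℝ) (z i) (z i)
    rw [real_inner_self_eq_norm_sq] at h
    have h2 : (fun q => ⟪z i q, z i q⟫) = fun q => z i q ^ 2 :=
      funext fun q => (show z i q * z i q = z i q ^ 2 by ring)
    rw [h2] at h
    exact h
  have hs1 : ∀ i j, Summable fun g : H => (z i (g, j)) ^ 2 := by
    intro i j
    exact (hsum i).summable.comp_injective (i := fun g : H => (g, j)) fun a b h => (Prod.ext_iff.1 h).1
  have hs2 : ∀ i, ∑ j, ∑' g : H, (z i (g, j)) ^ 2 = ‖z i‖ ^ 2 := by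
    intro i
    have h1 : Summable (Function.uncurry fun (g : H) (j : ι) => (z i (g, j)) ^ 2) := (hsum i).summable
    have h2 := h1.tsum_comm' (fun g => Summable.of_finite) (fun j => hs1 i j)
    rw [← (hsum i).tsum_eq, (hsum i).summable.tsum_prod]
    refine Eq.trans ?_ h2
    rw [tsum_fintype]
  have hs3 : ∀ i j, ∑' g : H, (z i (g⁻¹, j)) ^ 2 = ∑' g : H, (z i (g, j)) ^ 2 := fun i j =>
    (Equiv.inv H).tsum_eq fun g => (z i (g, j)) ^ 2
  have hs4 : ∀ j, ∑' p, ⟪e p, x j⟫ ^ 2 = ∑ i, (‖z i‖⁻¹) ^ 2 * ∑' g : H, (z i (g, j)) ^ 2 := by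
    intro j
    have h1 : Summable fun p => ⟪e p, x j⟫ ^ 2 := by
      have h := he.inner_products_summable (x j)
      refine h.congr fun p => ?_
      rw [Real.norm_eq_abs, sq_abs]
    have h3 : Summable (Function.uncurry fun (g : H) (i : Fin m) => ⟪e (g, i), x j⟫ ^ 2) := h1
    have h2 := h3.tsum_comm' (fun g => Summable.of_finite)
      (fun i => h1.comp_injective (i := fun g : H => (g, i)) fun a b h => (Prod.ext_iff.1 h).1)
    rw [h1.tsum_prod]
    refine Eq.trans h2.symm ?_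
    rw [tsum_fintype]
    refine Finset.sum_congr rfl fun i _ => ?_
    rw [← hs3 i j, ← tsum_mul_left]
    refine tsum_congr fun g => ?_
    rw [hval, mul_pow]
  calc (m : ℝ) = ∑ i : Fin m, (‖z i‖⁻¹) ^ 2 * ‖z i‖ ^ 2 := by
        have : ∀ i : Fin m, (‖z i‖⁻¹) ^ 2 * ‖z i‖ ^ 2 = 1 := fun i => by
          rw [← mul_pow, inv_mul_cancel₀ (hn i), one_pow]
        rw [Finset.sum_congr rfl fun i _ => this i]
        simp
    _ = ∑ i : Fin m, (‖z i‖⁻¹) ^ 2 * ∑ j, ∑' g : H, (z i (g, j)) ^ 2 := by simp_rw [hs2]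
    _ = ∑ j, ∑' p, ⟪e p, x j⟫ ^ 2 := by
        simp_rw [hs4, Finset.mul_sum]
        exact Finset.sum_comm
    _ ≤ ∑ j, ‖x j‖ ^ 2 := Finset.sum_le_sum fun j _ => hb j

end Pool.Agent.H5L
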