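import Pool.Agent.H5L.L1
import Pool.Agent.H5.Vill

/-!
Rows and columns over the group ring as vectors; the relation module of a group with a positive cone.
-/

set_option autoImplicit false

open scoped ENNReal RealInnerProductSpace
open MonoidAlgebra Pool.Agent.H5

namespace Pool.Agent.H5L

variable {H : Type} [Group H] {ι : Type} [Fintype ι]

lemma memlp_fin {X : Type} {f : X → ℝ} (hf : f.support.Finite) : Memℓp f 2 := by
  rw [memℓp_gen_iff (by norm_num)]
  refine summable_of_finite_support (hf.subset fun x hx => ?_)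
  intro h
  apply hx
  show ‖f x‖ ^ (2 : ℝ≥0∞).toReal = 0
  rw [h, norm_zero, Real.zero_rpow (by norm_num)]

lemma supp_fin (k : ι → MonoidAlgebra ℤ H) : {p : H × ι | (k p.2).coeff p.1 ≠ 0}.Finite := by
  classical
  refine (Set.finite_iUnion fun j : ι => ((k j).coeff.support.finite_toSet.image fun g => (g, j))).subset ?_
  rintro ⟨g, j⟩ h
  exact Set.mem_iUnion.2 ⟨j, g, Finsupp.mem_support_iff.2 h, rfl⟩

/-- the vector of a column -/
noncomputable def colV (f : ι → MonoidAlgebra ℤ H) : L2 H ι :=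
  ⟨fun p => ((f p.2).coeff p.1 : ℝ), memlp_fin ((supp_fin f).subset fun p hp h => hp (by
    show ((f p.2).coeff p.1 : ℝ) = 0
    exact_mod_cast h))⟩

/-- the vector of a row -/
noncomputable def rowV (k : ι → MonoidAlgebra ℤ H) : L2 H ι :=
  ⟨fun p => ((k p.2).coeff p.1⁻¹ : ℝ), memlp_fin (((supp_fin k).preimage
    (f := fun p : H × ι => (p.1⁻¹, p.2)) (fun a _ b _ h => by
      obtain ⟨h1, h2⟩ := Prod.ext_iff.1 h
      exact Prod.ext (inv_injective h1) h2)).subset fun p hp h => hp (by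
    show ((k p.2).coeff p.1⁻¹ : ℝ) = 0
    exact_mod_cast h))⟩

lemma colV_apply (f : ι → MonoidAlgebra ℤ H) (p : H × ι) : colV f p = ((f p.2).coeff p.1 : ℝ) := rfl

lemma rowV_apply (k : ι → MonoidAlgebra ℤ H) (p : H × ι) : rowV k p = ((k p.2).coeff p.1⁻¹ : ℝ) := rfl

lemma hasSum_mul (a b : MonoidAlgebra ℤ H) (g : H) :
    HasSum (fun u : H => ((a.coeff u⁻¹ : ℝ)) * (b.coeff (u * g⁻¹) : ℝ)) ((a * b).coeff g⁻¹ : ℝ) := by
  rw [← (Equiv.inv H).hasSum_iff, MonoidAlgebra.coeff_mul_apply_left, Finsupp.sum]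
  push_cast
  have h : ((fun u : H => ((a.coeff u⁻¹ : ℝ)) * (b.coeff (u * g⁻¹) : ℝ)) ∘ (Equiv.inv H)) =
      fun h : H => (a.coeff h : ℝ) * (b.coeff (h⁻¹ * g⁻¹) : ℝ) := by
    funext h
    simp
  rw [h]
  refine hasSum_sum_of_ne_finset_zero fun u hu => ?_
  rw [Finsupp.notMem_support_iff.1 hu, Int.cast_zero, zero_mul]

/-- the pairing of a row with a translated column -/
theorem pairing (k f : ι → MonoidAlgebra ℤ H) (g : H) :
    ⟪rowV k, rt g (colV f)⟫ = ((k ⬝ᵥ f).coeff g⁻¹ : ℝ) := by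
  classical
  have h1 : ∀ j, HasSum (fun u : H => ((k j).coeff u⁻¹ : ℝ) * ((f j).coeff (u * g⁻¹) : ℝ)) ((k j * f j).coeff g⁻¹ : ℝ) :=
    fun j => hasSum_mul (k j) (f j) g
  have h2 : Summable fun p : H × ι => ⟪rowV k p, rt g (colV f) p⟫ := (lp.hasSum_inner (𝕜 := ℝ) (rowV k) (rt g (colV f))).summable
  have h3 : ∀ p : H × ι, ⟪rowV k p, rt g (colV f) p⟫ = ((k p.2).coeff p.1⁻¹ : ℝ) * ((f p.2).coeff (p.1 * g⁻¹) : ℝ) := by
    intro p
    show rt g (colV f) p * rowV k p = _
    rw [rt_apply, colV_apply, rowV_apply, mul_comm]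
  have h4 : (k ⬝ᵥ f).coeff g⁻¹ = ∑ j, (k j * f j).coeff g⁻¹ := by
    rw [dotProduct, MonoidAlgebra.coeff_sum, Finsupp.finset_sum_apply]
  rw [lp.inner_eq_tsum, h2.tsum_prod]
  have h5 : Summable (Function.uncurry fun (g' : H) (j : ι) => ⟪rowV k (g', j), rt g (colV f) (g', j)⟫) := h2
  have h6 := h5.tsum_comm' (fun _ => Summable.of_finite)
    (fun j => h2.comp_injective (i := fun g' : H => (g', j)) fun a b h => (Prod.ext_iff.1 h).1)
  refine h6.symm.trans ?_
  rw [tsum_fintype, h4, Int.cast_sum]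
  refine Finset.sum_congr rfl fun j _ => ?_
  rw [← (h1 j).tsum_eq]
  exact tsum_congr fun u => h3 (u, j)

/-- translated rows and columns -/
lemma pairing_two (k f : ι → MonoidAlgebra ℤ H) (t g : H) :
    ⟪rt t (rowV k), rt g (colV f)⟫ = ((k ⬝ᵥ f).coeff (t * g⁻¹) : ℝ) := by
  rw [rt_inner_two, pairing, mul_inv_rev, inv_inv]

variable [DecidableEq ι]

/-- The relation module of a group with a positive cone is generated by finitely many elements when every finite set
of its elements is fixed by a matrix with rows in the module. -/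
theorem relMod_fix {P : H → Prop} (hP : Cone P) {x : ι → H}
    (hV : ∀ s : Finset (ι → MonoidAlgebra ℤ H), (∀ k ∈ s, k ∈ relMod x) →
      ∃ θ : Matrix ι ι (MonoidAlgebra ℤ H), (∀ i, θ i ∈ relMod x) ∧ ∀ k ∈ s, Matrix.vecMul k θ = k) :
    ∃ θ : Matrix ι ι (MonoidAlgebra ℤ H), (∀ i, θ i ∈ relMod x) ∧ ∀ k ∈ relMod x, Matrix.vecMul k θ = k := by
  classical
  let A : Set (L2 H ι) := {v | ∃ g : H, ∃ k ∈ relMod x, v = rt g (rowV k)}
  let W : Submodule ℝ (L2 H ι) := (Submodule.span ℝ A).topologicalClosure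
  have hWc : IsClosed (W : Set (L2 H ι)) := Submodule.isClosed_topologicalClosure _
  have : CompleteSpace W := hWc.completeSpace_coe
  have hAW : ∀ v ∈ A, v ∈ W := fun v hv => Submodule.le_topologicalClosure _ (Submodule.subset_span hv)
  have hWinv : ∀ g, ∀ v ∈ W, rt g v ∈ W := by
    intro g v hv
    refine map_closure_le hWc g ?_ hv
    rintro v ⟨t, k, hk, rfl⟩
    rw [← rt_mul]
    exact hAW _ ⟨_, k, hk, rfl⟩
  -- approximation
  set n : ℕ := Fintype.card ι with hn
  have happ : ∀ j : ι, ∃ y ∈ Submodule.span ℝ A, ‖W.starProjection (dl (1, j)) - y‖ ^ 2 < 1 / (n + 1) := by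
    intro j
    have h0 : W.starProjection (dl (1, j)) ∈ W := Submodule.starProjection_apply_mem _ _
    have h1 : W.starProjection (dl (1, j)) ∈ closure (Submodule.span ℝ A : Set (L2 H ι)) := by
      rw [← Submodule.topologicalClosure_coe]
      exact h0
    obtain ⟨y, hy, hd⟩ := Metric.mem_closure_iff.1 h1 (Real.sqrt (1 / (n + 1))) (Real.sqrt_pos.2 (by positivity))
    refine ⟨y, hy, ?_⟩
    rw [dist_eq_norm] at hd
    have h2 := pow_lt_pow_left₀ hd (norm_nonneg _) two_ne_zero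
    rwa [Real.sq_sqrt (by positivity)] at h2
  choose y hyA hy using happ
  -- the finite set
  have hfin : ∀ j, ∃ s : Finset (ι → MonoidAlgebra ℤ H), (∀ k ∈ s, k ∈ relMod x) ∧
      y j ∈ Submodule.span ℝ {v | ∃ g : H, ∃ k ∈ s, v = rt g (rowV k)} := by
    intro j
    refine Submodule.span_induction (p := fun v _ => ∃ s : Finset (ι → MonoidAlgebra ℤ H), (∀ k ∈ s, k ∈ relMod x) ∧
      v ∈ Submodule.span ℝ {v | ∃ g : H, ∃ k ∈ s, v = rt g (rowV k)}) ?_ ?_ ?_ ?_ (hyA j)
    · rintro v ⟨g, k, hk, rfl⟩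
      exact ⟨{k}, fun k' hk' => by rw [Finset.mem_singleton.1 hk']; exact hk,
        Submodule.subset_span ⟨g, k, Finset.mem_singleton_self _, rfl⟩⟩
    · exact ⟨∅, fun k hk => absurd hk (Finset.notMem_empty _), Submodule.zero_mem _⟩
    · rintro v w _ _ ⟨s, hs, h1⟩ ⟨s', hs', h2⟩
      refine ⟨s ∪ s', fun k hk => (Finset.mem_union.1 hk).elim (hs k) (hs' k), Submodule.add_mem _ ?_ ?_⟩
      · refine Submodule.span_mono ?_ h1
        rintro v ⟨g, k, hk, rfl⟩
        exact ⟨g, k, Finset.mem_union_left _ hk, rfl⟩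
      · refine Submodule.span_mono ?_ h2
        rintro v ⟨g, k, hk, rfl⟩
        exact ⟨g, k, Finset.mem_union_right _ hk, rfl⟩
    · rintro c v _ ⟨s, hs, h1⟩
      exact ⟨s, hs, Submodule.smul_mem _ _ h1⟩
  choose S hS hyS using hfin
  obtain ⟨θ, hθ, hfix⟩ := hV (Finset.univ.biUnion S) fun k hk => by
    obtain ⟨j, -, hj⟩ := Finset.mem_biUnion.1 hk
    exact hS j k hj
  refine ⟨θ, hθ, fun w hw => ?_⟩
  by_contra hne
  -- a nonzero entry
  have hne2 : ∃ j, (Matrix.vecMul w (1 - θ)) j ≠ 0 := by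
    by_contra h
    push Not at h
    apply hne
    have h1 : Matrix.vecMul w (1 - θ) = 0 := funext h
    rw [Matrix.vecMul_sub, Matrix.vecMul_one, sub_eq_zero] at h1
    exact h1.symm
  obtain ⟨j, hj⟩ := hne2
  set a : MonoidAlgebra ℤ H := (Matrix.vecMul w (1 - θ)) j with ha
  set f : ι → MonoidAlgebra ℤ H := fun i => (1 - θ) i j with hf
  have hwf : w ⬝ᵥ f = a := rfl
  have hne3 : a.coeff.support.Nonempty := by
    rw [Finsupp.support_nonempty_iff]
    intro h
    exact hj (MonoidAlgebra.coeff_injective (by rw [h]; rfl))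
  obtain ⟨t, ht, hmin⟩ := hP.exists_min _ hne3
  -- the family
  let v : L2 H ι := W.starProjection (rt t⁻¹ (colV f))
  have hpair : ∀ k ∈ relMod x, ∀ u s : H, ⟪rt u (rowV k), rt s v⟫ = ((k ⬝ᵥ f).coeff (u * s⁻¹ * t) : ℝ) := by
    intro k hk u s
    have h1 : rt s⁻¹ (rt u (rowV k)) ∈ W := hWinv _ _ (hAW _ ⟨u, k, hk, rfl⟩)
    have h2 : ⟪rt s⁻¹ (rt u (rowV k)), v⟫ = ⟪rt s⁻¹ (rt u (rowV k)), rt t⁻¹ (colV f)⟫ := by
      have h3 := Submodule.starProjection_inner_eq_zero (K := W) (rt t⁻¹ (colV f)) _ h1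
      rw [inner_sub_left, sub_eq_zero] at h3
      rw [real_inner_comm, ← h3, real_inner_comm]
    rw [rt_inner_right, h2, ← rt_mul, pairing_two, inv_inv]
  obtain ⟨z, hz0, hzC, hzo⟩ := exists_innovation hP (m := 1) (fun _ => v) (fun _ => rowV w)
    (by
      intro _
      have h1 := hpair w hw 1 1
      rw [rt_one, rt_one, inv_one, one_mul, one_mul, hwf] at h1
      rw [h1]
      exact_mod_cast Finsupp.mem_support_iff.1 ht)
    (by
      intro _ s _ hs
      have h1 := hpair w hw 1 s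
      rw [rt_one, one_mul, hwf] at h1
      rw [h1]
      by_contra h2
      have h3 : s⁻¹ * t ∈ a.coeff.support := Finsupp.mem_support_iff.2 (by exact_mod_cast h2)
      rcases hmin _ h3 with h4 | h4
      · rw [mul_eq_right, inv_eq_one] at h4
        exact hP.one (h4 ▸ hs)
      · rw [mul_assoc, mul_inv_cancel, mul_one] at h4
        exact hP.inv s hs h4)
    (by
      intro i l hl
      exact absurd hl (by have := i.2; have := l.2; omega))
  -- the orthogonality
  have hCW : Cl (fun _ : Fin 1 => v) ≤ W := by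
    refine closure_le hWc ?_
    rintro _ ⟨g, l, rfl⟩
    exact hWinv _ _ (Submodule.starProjection_apply_mem _ _)
  have hort : ∀ j', ∀ u ∈ Cl (fun _ : Fin 1 => v), ⟪y j', u⟫ = 0 := by
    intro j' u hu
    have hc : IsClosed ((LinearMap.ker (innerSL ℝ (y j')).toLinearMap : Submodule ℝ (L2 H ι)) : Set (L2 H ι)) :=
      (innerSL ℝ (y j')).isClosed_ker
    have h3 : Cl (fun _ : Fin 1 => v) ≤ LinearMap.ker (innerSL ℝ (y j')).toLinearMap := by
      refine closure_le hc ?_
      rintro _ ⟨g, l, rfl⟩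
      show ⟪y j', rt g v⟫ = 0
      refine Submodule.span_induction (p := fun q _ => ⟪q, rt g v⟫ = 0) ?_ ?_ ?_ ?_ (hyS j')
      · rintro _ ⟨u', k, hk, rfl⟩
        rw [hpair k (hS j' k hk)]
        have h4 := hfix k (Finset.mem_biUnion.2 ⟨j', Finset.mem_univ _, hk⟩)
        have h5 : k ⬝ᵥ f = 0 := by
          have h6 : Matrix.vecMul k (1 - θ) = 0 := by
            rw [Matrix.vecMul_sub, Matrix.vecMul_one, h4, sub_self]
          exact congrFun h6 j
        rw [h5]
        simp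
      · exact inner_zero_left _
      · intro q q' _ _ h4 h5
        rw [inner_add_left, h4, h5, add_zero]
      · intro c q _ h4
        rw [real_inner_smul_left, h4, mul_zero]
    exact h3 hu
  have hCinv : ∀ g, ∀ u ∈ Cl (fun _ : Fin 1 => v), rt g u ∈ Cl (fun _ : Fin 1 => v) := by
    intro g u hu
    refine map_closure_le (Cl_closed _) g ?_ hu
    rintro _ ⟨t', l, rfl⟩
    rw [← rt_mul]
    exact Submodule.le_topologicalClosure _ (Submodule.subset_span ⟨_, l, rfl⟩)
  have htr := trace_le hz0 hzo (fun j' => W.starProjection (dl (1, j')) - y j') (by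
    intro j' i g
    have h1 : rt g (z i) ∈ Cl (fun _ : Fin 1 => v) := hCinv g _ (hzC i)
    rw [← sub_add, inner_add_left, hort j' _ h1, add_zero]
    exact Submodule.starProjection_inner_eq_zero _ _ (hCW h1))
  have hlt : ∑ j', ‖W.starProjection (dl (1, j')) - y j'‖ ^ 2 ≤ ∑ _j' : ι, (1 : ℝ) / (n + 1) :=
    Finset.sum_le_sum fun j' _ => (hy j').le
  rw [Finset.sum_const, Finset.card_univ, ← hn, nsmul_eq_mul] at hlt
  have h1 : (n : ℝ) * (1 / (n + 1)) < 1 := by
    rw [mul_one_div, div_lt_one (by positivity)]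
    linarith
  rw [Nat.cast_one] at htr
  linarith

end Pool.Agent.H5L
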