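import Pool.Agent.H5L.L2
import Pool.Agent.H5.FreeInd

/-!
Groups with a positive cone: the number of independent subgroups; freeness.
-/

set_option autoImplicit false

open scoped ENNReal RealInnerProductSpace
open MonoidAlgebra Pool.Agent.H5

namespace Pool.Agent.H5L

variable {V : Type} [Group V]

/-- affine maps of `m` copies of the group ring, with linear part in the group -/
@[ext] structure Aff (V : Type) [Group V] (m : ℕ) where
  vec : Fin m → MonoidAlgebra ℤ V
  lin : V

noncomputable instance (m : ℕ) : Group (Aff V m) :=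
  letI : Mul (Aff V m) := ⟨fun a b => ⟨a.vec + el a.lin • b.vec, a.lin * b.lin⟩⟩
  letI : One (Aff V m) := ⟨⟨0, 1⟩⟩
  letI : Inv (Aff V m) := ⟨fun a => ⟨-(el a.lin⁻¹ • a.vec), a.lin⁻¹⟩⟩
  Group.ofLeftAxioms
    (fun a b c => by
      ext1
      · show (a.vec + el a.lin • b.vec) + el (a.lin * b.lin) • c.vec = a.vec + el a.lin • (b.vec + el b.lin • c.vec)
        rw [el_mul, smul_add, smul_smul, add_assoc]
      · exact mul_assoc _ _ _)
    (fun a => by
      ext1
      · show (0 : Fin m → MonoidAlgebra ℤ V) + el (1 : V) • a.vec = a.vec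
        rw [el_one, one_smul, zero_add]
      · exact one_mul _)
    (fun a => by
      ext1
      · show -(el a.lin⁻¹ • a.vec) + el a.lin⁻¹ • a.vec = 0
        exact neg_add_cancel _
      · exact inv_mul_cancel _)

lemma Aff.mul_vec {m : ℕ} (a b : Aff V m) : (a * b).vec = a.vec + el a.lin • b.vec := rfl

lemma Aff.mul_lin {m : ℕ} (a b : Aff V m) : (a * b).lin = a.lin * b.lin := rfl

lemma Aff.one_vec {m : ℕ} : (1 : Aff V m).vec = 0 := rfl

/-- the homomorphism of one subgroup -/
noncomputable def fhom {m : ℕ} (B : Subgroup V) (i : Fin m) : B →* Aff V m where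
  toFun b := ⟨Pi.single i (el (b : V) - 1), b⟩
  map_one' := by
    ext1
    · show (Pi.single i (el (1 : V) - 1) : Fin m → MonoidAlgebra ℤ V) = 0
      rw [el_one, sub_self, Pi.single_zero]
    · rfl
  map_mul' := by
    intro a b
    ext1
    · show (Pi.single i (el ((a : V) * b) - 1) : Fin m → MonoidAlgebra ℤ V)
        = Pi.single i (el (a : V) - 1) + el (a : V) • Pi.single i (el (b : V) - 1)
      rw [← Pi.single_smul, ← Pi.single_add, el_mul, smul_eq_mul]
      congr 1
      noncomm_ring
    · rfl

lemma exists_prow {d m : ℕ} {x : Fin d → V} (hx : Subgroup.closure (Set.range x) = ⊤) (F : V →* Aff V m) (g : V) :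
    ∃ p : Fin d → MonoidAlgebra ℤ V, ∀ i, (F g).vec i = p ⬝ᵥ fun j => (F (x j)).vec i := by
  classical
  have hg : g ∈ Subgroup.closure (Set.range x) := by rw [hx]; trivial
  induction hg using Subgroup.closure_induction with
  | mem g hg =>
    obtain ⟨j, rfl⟩ := hg
    exact ⟨Pi.single j 1, fun i => by rw [single_dotProduct, one_mul]⟩
  | one => exact ⟨0, fun i => by rw [map_one, Aff.one_vec, zero_dotProduct]; rfl⟩
  | mul g h _ _ ihg ihh =>
    obtain ⟨p, hp⟩ := ihg
    obtain ⟨q, hq⟩ := ihh
    refine ⟨p + el (F g).lin • q, fun i => ?_⟩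
    rw [map_mul, Aff.mul_vec, add_dotProduct, smul_dotProduct, ← hp i, ← hq i]
    rfl
  | inv g _ ihg =>
    obtain ⟨p, hp⟩ := ihg
    refine ⟨-(el (F g).lin⁻¹ • p), fun i => ?_⟩
    rw [map_inv, neg_dotProduct, smul_dotProduct, ← hp i]
    rfl

/-- the number of independent nontrivial subgroups of a group with a positive cone -/
theorem ind_le {P : V → Prop} (hP : Cone P) {d m : ℕ} {x : Fin d → V}
    (hx : Subgroup.closure (Set.range x) = ⊤) (hI : Ind V m) : m ≤ d := by
  classical
  obtain ⟨B, hB, hext⟩ := hI
  have hb : ∀ i, ∃ b : B i, P (b : V) := by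
    intro i
    obtain ⟨b, hb⟩ := Subgroup.ne_bot_iff_exists_ne_one.1 (hB i)
    have hb1 : (b : V) ≠ 1 := fun h => hb (Subtype.ext h)
    rcases hP.tot _ hb1 with h | h
    · exact ⟨b, h⟩
    · exact ⟨b⁻¹, h⟩
  choose b hbP using hb
  obtain ⟨F, hF⟩ := hext (Aff V m) fun i => fhom (B i) i
  choose p hp using fun l => exists_prow hx F (b l : V)
  have hpc : ∀ l i, (p l ⬝ᵥ fun j => (F (x j)).vec i) = if l = i then el (b l : V) - 1 else 0 := by
    intro l i
    rw [← hp l i, hF l (b l)]
    show (Pi.single l (el (b l : V) - 1) : Fin m → MonoidAlgebra ℤ V) i = _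
    by_cases h : l = i
    · subst h
      rw [Pi.single_eq_same, if_pos rfl]
    · rw [Pi.single_eq_of_ne (Ne.symm h), if_neg h]
  have hpair : ∀ l i s, ⟪rowV (p l), rt s (colV fun j => (F (x j)).vec i)⟫ =
      (((if l = i then el (b l : V) - 1 else 0 : MonoidAlgebra ℤ V)).coeff s⁻¹ : ℝ) := by
    intro l i s
    rw [pairing, hpc]
  have hcoef : ∀ l (g : V), (el (b l : V) - 1 : MonoidAlgebra ℤ V).coeff g =
      (if (b l : V) = g then 1 else 0) - if (1 : V) = g then 1 else 0 := by
    intro l g
    rw [MonoidAlgebra.coeff_sub, Finsupp.sub_apply, MonoidAlgebra.one_def]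
    rw [show el (b l : V) = MonoidAlgebra.single (b l : V) 1 from rfl, MonoidAlgebra.coeff_single_apply,
      MonoidAlgebra.coeff_single_apply]
  have hb1 : ∀ l, (b l : V) ≠ 1 := fun l h => hP.one (h ▸ hbP l)
  obtain ⟨z, hz0, -, hzo⟩ := exists_innovation hP (m := m) (fun i => colV fun j => (F (x j)).vec i) (fun l => rowV (p l))
    (by
      intro i
      have h1 := hpair i i 1
      rw [rt_one, if_pos rfl, inv_one, hcoef, if_neg (hb1 i), if_pos rfl] at h1
      rw [h1]
      norm_num)
    (by
      intro i s l hs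
      rw [hpair]
      by_cases h : i = l
      · rw [if_pos h, hcoef, if_neg, if_neg]
        · norm_num
        · intro h2
          rw [eq_comm, inv_eq_one] at h2
          exact hP.one (h2 ▸ hs)
        · intro h2
          exact hP.inv s hs (h2 ▸ hbP i)
      · rw [if_neg h]
        simp)
    (by
      intro i l hl
      have h1 := hpair i l 1
      rw [rt_one, if_neg hl.ne'] at h1
      rw [h1]
      simp)
  have h1 := trace_le hz0 hzo (fun j => dl (1, j)) (by
    intro j i g
    rw [sub_self, inner_zero_left])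
  have h2 : ∀ j : Fin d, ‖(dl (1, j) : L2 V (Fin d))‖ = 1 := by
    intro j
    unfold dl
    rw [lp.norm_single (by norm_num)]
    exact norm_one
  simp_rw [h2] at h1
  rw [one_pow, Finset.sum_const, Finset.card_univ, Fintype.card_fin, nsmul_eq_mul, mul_one] at h1
  exact_mod_cast h1

/-- Induction over the number of independent subgroups. -/
theorem free_of_bound (n : ℕ) (m : ℕ) : ∀ (V : Type) [Group V] (_ : Pr V n) (_ : Group.FG V)
    (_ : ∀ m', Ind V m' → m' ≤ m), IsFreeGroup V := by
  classical
  induction m using Nat.strong_induction_on with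
  | _ m ih =>
    intro V _ hP hfg hI
    rcases subsingleton_or_nontrivial V with hs | hn
    · exact IsFreeGroup.ofMulEquiv (G := FreeGroup Empty) (H := V)
        { toFun := fun _ => 1
          invFun := fun _ => 1
          left_inv := fun _ => Subsingleton.elim _ _
          right_inv := fun _ => Subsingleton.elim _ _
          map_mul' := fun _ _ => Subsingleton.elim _ _ }
    · have htf := hP.torsionfree
      have hinf : Infinite V := by
        obtain ⟨g, hg⟩ := exists_ne (1 : V)
        have h1 : ¬ IsOfFinOrder g := fun h => hg (htf g h)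
        exact Infinite.of_injective _ (injective_pow_iff_not_isOfFinOrder.2 h1)
      obtain ⟨S, hS⟩ := Group.fg_def.1 hfg
      let T : Finset V := S ∪ S.image (fun s => s⁻¹)
      have hT : ∀ s ∈ T, s⁻¹ ∈ T := by
        intro s hs
        rcases Finset.mem_union.1 hs with hs | hs
        · exact Finset.mem_union_right _ (Finset.mem_image_of_mem _ hs)
        · obtain ⟨t, ht, rfl⟩ := Finset.mem_image.1 hs
          rw [inv_inv]; exact Finset.mem_union_left _ ht
      have hgen : Subgroup.closure (T : Set V) = ⊤ := by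
        rw [eq_top_iff, ← hS]
        refine Subgroup.closure_mono fun s hs => ?_
        rw [Finset.mem_coe, Finset.mem_union]
        exact Or.inl hs
      obtain ⟨F₀, hF₀⟩ := hP.exists_cut hT hgen
      rcases stallings hT hgen htf hF₀ with hsplit | hcyc
      · obtain ⟨K, hKne, hK⟩ := hsplit
        have hfree : ∀ i, IsFreeGroup (K i) := by
          intro i
          obtain ⟨ρ, hρ⟩ := exists_retraction hK i
          have h0 : 1 ≤ m := by
            apply hI
            refine Ind.extend hKne hK i (m := 0) ?_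
            exact ⟨fun j => j.elim0, fun j => j.elim0, fun W _ f => ⟨1, fun j => j.elim0⟩⟩
          have hfgK : Group.FG (K i) := Group.fg_of_surjective (f := ρ) fun k => ⟨k, hρ k⟩
          refine ih (m - 1) (by omega) (K i) (hP.retract (K i) ρ hρ) hfgK ?_
          intro m' hm'
          have := hI _ (Ind.extend hKne hK i hm')
          omega
        exact IsFreeGroup.ofMulEquiv (MulEquiv.ofBijective _ hK)
      · exact IsFreeGroup.ofMulEquiv
          ((FreeGroup.mulEquivIntOfUnique (α := Unit)).trans (intCyclicMulEquiv (G := V)))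

/-- A finitely generated group has `Pr` when the relation module is fixed by a matrix. -/
theorem Pr_of_fix {H : Type} [Group H] {n : ℕ} {x : Fin n → H} (hinj : Function.Injective x)
    (hx : Subgroup.closure (Set.range x) = ⊤) {θ : Matrix (Fin n) (Fin n) (MonoidAlgebra ℤ H)}
    (hθ : ∀ i, θ i ∈ relMod x) (hfix : ∀ k ∈ relMod x, Matrix.vecMul k θ = k) : Pr H n := by
  classical
  obtain ⟨D, hD, -⟩ := exists_D0 hinj hx
  refine ⟨fun g => Matrix.vecMul (D g) (1 - θ), colX x, ?_, ?_, ?_⟩
  · intro a b
    have h1 := defect_mem (x := x) hD (a, b)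
    have h2 := hfix _ h1
    have h3 : Matrix.vecMul (defect D (a, b)) θ - defect D (a, b)
        = Matrix.vecMul (D (a * b)) (1 - θ) - Matrix.vecMul (D a) (1 - θ)
          - el a • Matrix.vecMul (D b) (1 - θ) := by
      rw [defect, Matrix.vecMul_sub, Matrix.vecMul_sub, Matrix.vecMul_sub, Matrix.vecMul_one,
        Matrix.vecMul_one, Matrix.vecMul_one, Matrix.add_vecMul, Matrix.sub_vecMul,
        Matrix.smul_vecMul, smul_sub]
      abel
    rw [h2, sub_self, eq_comm, sub_sub, sub_eq_zero] at h3
    exact h3
  · intro a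
    have h1 : Matrix.vecMul (D a) θ ⬝ᵥ colX x = 0 := by
      have : Matrix.vecMul (D a) θ = ∑ i, D a i • θ i := by
        funext j
        simp [Matrix.vecMul, dotProduct]
      have h2 : Matrix.vecMul (D a) θ ∈ relMod x := by
        rw [this]
        exact Submodule.sum_mem _ fun i _ => Submodule.smul_mem _ _ (hθ i)
      exact h2
    show Matrix.vecMul (D a) (1 - θ) ⬝ᵥ colX x = el a - 1
    rw [Matrix.vecMul_sub, Matrix.vecMul_one, sub_dotProduct, hD, h1, sub_zero]
  · intro i
    rw [colX, map_sub, map_one, aug_el, sub_self]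

/-- A finitely generated group with a positive cone and vanishing second homology is free. -/
theorem free_of_cone {H : Type} [Group H] {P : H → Prop} (hP : Cone P)
    (hH : ∀ A : Rep.{0} ℤ H, Subsingleton (groupHomology A 2)) (hfg : Group.FG H) : IsFreeGroup H := by
  classical
  obtain ⟨S, hS⟩ := Group.fg_def.1 hfg
  let x : Fin S.card → H := fun i => (S.equivFin.symm i : H)
  have hinj : Function.Injective x := fun i j hij =>
    S.equivFin.symm.injective (Subtype.ext hij)
  have hrange : Set.range x = S := by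
    ext g
    constructor
    · rintro ⟨i, rfl⟩; exact (S.equivFin.symm i).2
    · intro hg; exact ⟨S.equivFin ⟨g, hg⟩, by simp [x]⟩
  have hx : Subgroup.closure (Set.range x) = ⊤ := by rw [hrange]; exact hS
  obtain ⟨θ, hθ, hfix⟩ := relMod_fix hP (villamayor hH hinj hx)
  exact free_of_bound S.card S.card H (Pr_of_fix hinj hx hθ hfix) hfg fun m' hm' => ind_le hP hx hm'

end Pool.Agent.H5L
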