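import Mathlib

/-!
Sylvester matrix rank functions.
-/

set_option autoImplicit false

namespace Pool.Agent.H5L

/-- A real valued Sylvester matrix rank function on a ring `R`: it assigns a real number to every
matrix over `R` with finite index types, zero to zero matrices and one to the matrix `1` of size
one, does not increase under multiplication by matrices, is additive under diagonal sums and at
least additive under triangular sums. -/
structure RankFunction (R : Type) [Ring R] where
  rk : ∀ {m n : Type} [Fintype m] [Fintype n], Matrix m n R → ℝ
  rk_zero : ∀ {m n : Type} [Fintype m] [Fintype n], rk (0 : Matrix m n R) = 0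
  rk_one : rk (1 : Matrix Unit Unit R) = 1
  rk_mul_le_left : ∀ {l m n : Type} [Fintype l] [Fintype m] [Fintype n]
    (A : Matrix l m R) (B : Matrix m n R), rk (A * B) ≤ rk A
  rk_mul_le_right : ∀ {l m n : Type} [Fintype l] [Fintype m] [Fintype n]
    (A : Matrix l m R) (B : Matrix m n R), rk (A * B) ≤ rk B
  rk_diag : ∀ {m n p q : Type} [Fintype m] [Fintype n] [Fintype p] [Fintype q]
    (A : Matrix m n R) (B : Matrix p q R), rk (Matrix.fromBlocks A 0 0 B) = rk A + rk B
  rk_triangular : ∀ {m n p q : Type} [Fintype m] [Fintype n] [Fintype p] [Fintype q]
    (A : Matrix m n R) (C : Matrix m q R) (B : Matrix p q R),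
    rk A + rk B ≤ rk (Matrix.fromBlocks A C 0 B)

end Pool.Agent.H5L
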