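import Pool.Agent.H5L.L3
import Pool.Agent.H5L.RankDef

/-!
Sylvester matrix rank functions with a gap; finiteness of the relation module; freeness.
-/

set_option autoImplicit false

open MonoidAlgebra Pool.Agent.H5

namespace Pool.Agent.H5L

namespace RankFunction

section Basic

variable {R : Type} [Ring R] (ρ : RankFunction R) {m n : Type} [Fintype m] [Fintype n]

lemma nonneg (A : Matrix m n R) : 0 ≤ ρ.rk A := by
  have h := ρ.rk_mul_le_left A (0 : Matrix n n R)
  rwa [Matrix.mul_zero, ρ.rk_zero] at h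

lemma submatrix_le [DecidableEq m] [DecidableEq n] {p q : Type} [Fintype p] [Fintype q] (A : Matrix m n R)
    (e : p → m) (f : q → n) : ρ.rk (A.submatrix e f) ≤ ρ.rk A := by
  have h : A.submatrix e f = ((1 : Matrix m m R).submatrix e id * A) * (1 : Matrix n n R).submatrix id f := by
    ext i j
    simp [Matrix.mul_apply, Matrix.one_apply]
  rw [h]
  exact (ρ.rk_mul_le_left _ _).trans (ρ.rk_mul_le_right _ _)

/-- the rank of the one by one matrix -/
noncomputable def r1 (a : R) : ℝ := ρ.rk (Matrix.of fun (_ _ : Unit) => a)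

lemma r1_le_entry [DecidableEq m] [DecidableEq n] (A : Matrix m n R) (i : m) (j : n) : ρ.r1 (A i j) ≤ ρ.rk A :=
  ρ.submatrix_le A (fun _ : Unit => i) (fun _ : Unit => j)

/-- The rank drops along a chain. -/
lemma drop [DecidableEq n] {φ φ' : Matrix n n R} (w : Matrix Unit n R) (h1 : φ * φ' = φ')
    (h2 : w * φ' = 0) : ρ.rk (w * φ) + ρ.rk φ' ≤ ρ.rk φ := by
  have h3 : Matrix.fromBlocks φ' φ 0 (w * φ) =
      (Matrix.fromRows (1 : Matrix n n R) w * φ) * Matrix.fromCols φ' (1 : Matrix n n R) := by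
    rw [Matrix.fromRows_mul, Matrix.fromRows_mul_fromCols, Matrix.one_mul, Matrix.mul_one, Matrix.mul_one, h1,
      Matrix.mul_assoc, h1, h2]
  have h4 := ρ.rk_triangular φ' φ (w * φ)
  rw [h3] at h4
  have h5 := (ρ.rk_mul_le_left (Matrix.fromRows (1 : Matrix n n R) w * φ) (Matrix.fromCols φ' (1 : Matrix n n R))).trans
    (ρ.rk_mul_le_right (Matrix.fromRows (1 : Matrix n n R) w) φ)
  linarith

lemma diagonal_ge {c : ℝ} (k : ℕ) (a : Fin k → R) (ha : ∀ i, c ≤ ρ.r1 (a i)) :
    k * c ≤ ρ.rk (Matrix.diagonal a) := by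
  induction k with
  | zero => simpa using ρ.nonneg _
  | succ k ih =>
    have h1 := ih (fun i => a i.castSucc) fun i => ha _
    have h2 : (Matrix.diagonal a).submatrix (Sum.elim Fin.castSucc fun _ : Unit => Fin.last k)
        (Sum.elim Fin.castSucc fun _ : Unit => Fin.last k) =
        Matrix.fromBlocks (Matrix.diagonal fun i : Fin k => a i.castSucc) 0 0 (Matrix.of fun (_ _ : Unit) => a (Fin.last k)) := by
      ext i j
      rcases i with i | i <;> rcases j with j | j
      · by_cases h : i = j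
        · subst h
          simp
        · have : (i.castSucc : Fin (k + 1)) ≠ j.castSucc := fun h' => h (Fin.castSucc_injective k h')
          simp [Matrix.diagonal_apply_ne _ h, Matrix.diagonal_apply_ne _ this]
      · simp [Matrix.diagonal_apply_ne _ (Fin.castSucc_lt_last i).ne]
      · simp [Matrix.diagonal_apply_ne _ (Fin.castSucc_lt_last j).ne']
      · simp
    have h3 := ρ.submatrix_le (Matrix.diagonal a) (Sum.elim Fin.castSucc fun _ : Unit => Fin.last k)
      (Sum.elim Fin.castSucc fun _ : Unit => Fin.last k)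
    rw [h2, ρ.rk_diag] at h3
    have h4 : c ≤ ρ.rk (Matrix.of fun (_ _ : Unit) => a (Fin.last k)) := ha _
    push_cast
    linarith

/-- the rank function of a ring mapping to the given one -/
noncomputable def comap {R' : Type} [Ring R'] (f : R' →+* R) : RankFunction R' where
  rk A := ρ.rk (A.map f)
  rk_zero := by
    intro m n _ _
    rw [Matrix.map_zero _ (map_zero f), ρ.rk_zero]
  rk_one := by
    rw [Matrix.map_one _ (map_zero f) (map_one f), ρ.rk_one]
  rk_mul_le_left := by
    intro l m n _ _ _ A B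
    rw [Matrix.map_mul]
    exact ρ.rk_mul_le_left _ _
  rk_mul_le_right := by
    intro l m n _ _ _ A B
    rw [Matrix.map_mul]
    exact ρ.rk_mul_le_right _ _
  rk_diag := by
    intro m n p q _ _ _ _ A B
    rw [Matrix.fromBlocks_map, Matrix.map_zero _ (map_zero f), Matrix.map_zero _ (map_zero f), ρ.rk_diag]
  rk_triangular := by
    intro m n p q _ _ _ _ A C B
    rw [Matrix.fromBlocks_map, Matrix.map_zero _ (map_zero f)]
    exact ρ.rk_triangular _ _ _

end Basic

variable {H : Type} [Group H] (ρ : RankFunction (MonoidAlgebra ℤ H)) {c : ℝ} {ι : Type} [Fintype ι]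

/-- The relation module is generated by finitely many elements when the rank function has a gap. -/
theorem relMod_fix (hc : 0 < c) (hgap : ∀ a : MonoidAlgebra ℤ H, a ≠ 0 → c ≤ ρ.r1 a) [DecidableEq ι] {x : ι → H}
    (hV : ∀ s : Finset (ι → MonoidAlgebra ℤ H), (∀ k ∈ s, k ∈ relMod x) →
      ∃ θ : Matrix ι ι (MonoidAlgebra ℤ H), (∀ i, θ i ∈ relMod x) ∧ ∀ k ∈ s, Matrix.vecMul k θ = k) :
    ∃ θ : Matrix ι ι (MonoidAlgebra ℤ H), (∀ i, θ i ∈ relMod x) ∧ ∀ k ∈ relMod x, Matrix.vecMul k θ = k := by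
  classical
  by_contra hcon
  push Not at hcon
  have key : ∀ N : ℕ, ∃ θ : Matrix ι ι (MonoidAlgebra ℤ H), (∀ i, θ i ∈ relMod x) ∧
      ρ.rk (1 - θ) ≤ ρ.rk (1 : Matrix ι ι (MonoidAlgebra ℤ H)) - N * c := by
    intro N
    induction N with
    | zero => exact ⟨0, fun i => Submodule.zero_mem _, by simp⟩
    | succ N ih =>
      obtain ⟨θ, hθ, hr⟩ := ih
      obtain ⟨w, hw, hne⟩ := hcon θ hθ
      obtain ⟨θ', hθ', hfix⟩ := hV (insert w (Finset.univ.image fun i => θ i)) (by
        intro k hk
        rcases Finset.mem_insert.1 hk with rfl | hk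
        · exact hw
        · obtain ⟨i, -, rfl⟩ := Finset.mem_image.1 hk
          exact hθ i)
      refine ⟨θ', hθ', ?_⟩
      have h1 : θ * θ' = θ := by
        funext i
        exact hfix (θ i) (Finset.mem_insert_of_mem (Finset.mem_image_of_mem _ (Finset.mem_univ i)))
      have h2 : Matrix.vecMul w θ' = w := hfix w (Finset.mem_insert_self _ _)
      let W : Matrix Unit ι (MonoidAlgebra ℤ H) := Matrix.of fun _ => w
      have h3 : W * θ' = W := by
        funext i
        exact h2
      have h4 : (1 - θ) * (1 - θ') = 1 - θ' := by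
        rw [mul_sub, mul_one, sub_mul, one_mul, h1]
        abel
      have h5 : W * (1 - θ') = 0 := by
        rw [Matrix.mul_sub, Matrix.mul_one, h3, sub_self]
      have h6 := ρ.drop W h4 h5
      obtain ⟨j, hj⟩ := Function.ne_iff.1 hne
      have h7 : (W * (1 - θ) : Matrix Unit ι (MonoidAlgebra ℤ H)) () j ≠ 0 := by
        rw [Matrix.mul_sub, Matrix.mul_one, Matrix.sub_apply]
        intro h
        exact hj (sub_eq_zero.1 h).symm
      have h8 := (hgap _ h7).trans (ρ.r1_le_entry (W * (1 - θ)) () j)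
      push_cast
      linarith
  obtain ⟨N, hN⟩ := exists_nat_gt (ρ.rk (1 : Matrix ι ι (MonoidAlgebra ℤ H)) / c)
  obtain ⟨θ, -, hr⟩ := key N
  rw [div_lt_iff₀ hc] at hN
  have := ρ.nonneg (1 - θ)
  linarith

/-- the number of independent nontrivial subgroups -/
theorem ind_bound (hgap : ∀ a : MonoidAlgebra ℤ H, a ≠ 0 → c ≤ ρ.r1 a) {d m : ℕ} {x : Fin d → H}
    (hx : Subgroup.closure (Set.range x) = ⊤) (hI : Ind H m) :
    m * c ≤ ρ.rk (1 : Matrix (Fin d) (Fin d) (MonoidAlgebra ℤ H)) := by
  classical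
  obtain ⟨B, hB, hext⟩ := hI
  have hb : ∀ i, ∃ b : B i, (b : H) ≠ 1 := by
    intro i
    obtain ⟨b, hb⟩ := Subgroup.ne_bot_iff_exists_ne_one.1 (hB i)
    exact ⟨b, fun h => hb (Subtype.ext h)⟩
  choose b hb1 using hb
  obtain ⟨F, hF⟩ := hext (Aff H m) fun i => fhom (B i) i
  choose p hp using fun l => exists_prow hx F (b l : H)
  have hpc : ∀ l i, (p l ⬝ᵥ fun j => (F (x j)).vec i) = if l = i then el (b l : H) - 1 else 0 := by
    intro l i
    rw [← hp l i, hF l (b l)]
    show (Pi.single l (el (b l : H) - 1) : Fin m → MonoidAlgebra ℤ H) i = _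
    by_cases h : l = i
    · subst h
      rw [Pi.single_eq_same, if_pos rfl]
    · rw [Pi.single_eq_of_ne (Ne.symm h), if_neg h]
  let P : Matrix (Fin m) (Fin d) (MonoidAlgebra ℤ H) := Matrix.of p
  let C : Matrix (Fin d) (Fin m) (MonoidAlgebra ℤ H) := Matrix.of fun j i => (F (x j)).vec i
  have hPC : P * (1 : Matrix (Fin d) (Fin d) (MonoidAlgebra ℤ H)) * C = Matrix.diagonal fun l => el (b l : H) - 1 := by
    ext1 l i
    rw [Matrix.mul_one, Matrix.diagonal_apply]
    exact hpc l i
  have h1 := ρ.diagonal_ge m (fun l => el (b l : H) - 1) (c := c) (fun l => hgap _ (by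
    intro h
    rw [sub_eq_zero, ← el_one] at h
    exact hb1 l (MonoidAlgebra.of_injective h)))
  rw [← hPC] at h1
  exact h1.trans ((ρ.rk_mul_le_left _ _).trans (ρ.rk_mul_le_right _ _))

/-- A finitely generated group with vanishing second homology and a rank function with a gap is free. -/
theorem free (hc : 0 < c) (hgap : ∀ a : MonoidAlgebra ℤ H, a ≠ 0 → c ≤ ρ.r1 a)
    (hH : ∀ A : Rep.{0} ℤ H, Subsingleton (groupHomology A 2)) (hfg : Group.FG H) : IsFreeGroup H := by
  classical
  obtain ⟨S, hS⟩ := Group.fg_def.1 hfg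
  let x : Fin S.card → H := fun i => (S.equivFin.symm i : H)
  have hinj : Function.Injective x := fun i j hij =>
    S.equivFin.symm.injective (Subtype.ext hij)
  have hrange : Set.range x = S := by
    ext g
    constructor
    · rintro ⟨i, rfl⟩; exact (S.equivFin.symm i).2
    · intro hg; exact ⟨S.equivFin ⟨g, hg⟩, by simp [x]⟩
  have hx : Subgroup.closure (Set.range x) = ⊤ := by rw [hrange]; exact hS
  obtain ⟨θ, hθ, hfix⟩ := ρ.relMod_fix hc hgap (villamayor hH hinj hx)
  refine free_of_bound S.card ⌊ρ.rk (1 : Matrix (Fin S.card) (Fin S.card) (MonoidAlgebra ℤ H)) / c⌋₊ H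
    (Pr_of_fix hinj hx hθ hfix) hfg fun m' hm' => ?_
  have h1 := ρ.ind_bound hgap hx hm'
  exact Nat.le_floor ((le_div_iff₀ hc).2 h1)

end RankFunction

end Pool.Agent.H5L
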