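import Pool.Agent.H5L.TDef

/-!
Fixed points for local cocycles of a group with property (T).
-/

set_option autoImplicit false

open scoped RealInnerProductSpace

namespace Pool.Agent.H5L

variable {Γ : Type} [Group Γ] {E : Type} [NormedAddCommGroup E] [InnerProductSpace ℝ E]

/-- linear extension of a map on the group -/
noncomputable def ext (b : Γ → E) : MonoidAlgebra ℝ Γ →ₗ[ℝ] E :=
  (Finsupp.linearCombination ℝ b) ∘ₗ (MonoidAlgebra.coeffLinearEquiv ℝ).toLinearMap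

lemma ext_single (b : Γ → E) (g : Γ) (r : ℝ) : ext b (MonoidAlgebra.single g r) = r • b g :=
  Finsupp.linearCombination_single ℝ r g

lemma expand [DecidableEq Γ] (ξ : MonoidAlgebra ℝ Γ) {F : Finset Γ} (hF : ξ.coeff.support ⊆ F) :
    ξ = ∑ g ∈ F, MonoidAlgebra.single g (ξ.coeff g) := by
  ext h
  rw [MonoidAlgebra.coeff_sum, Finsupp.finsetSum_apply]
  have : ∀ g ∈ F, (MonoidAlgebra.single g (ξ.coeff g)).coeff h = if g = h then ξ.coeff h else 0 := by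
    intro g _
    show (Finsupp.single g (ξ.coeff g)) h = _
    rw [Finsupp.single_apply]
    by_cases hg : g = h
    · subst hg; simp
    · rw [if_neg hg, if_neg hg]
  rw [Finset.sum_congr rfl this, Finset.sum_ite_eq']
  split_ifs with h1
  · rfl
  · exact Finsupp.notMem_support_iff.1 fun h2 => h1 (hF h2)

lemma adj_single (g : Γ) (r : ℝ) : adj (MonoidAlgebra.single g r) = MonoidAlgebra.single g⁻¹ r := by
  unfold adj
  rw [MonoidAlgebra.mapDomain_single]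

lemma adj_add (a b : MonoidAlgebra ℝ Γ) : adj (a + b) = adj a + adj b := by
  unfold adj
  exact map_add (MonoidAlgebra.mapDomainLinearMap ℝ ℝ fun g : Γ => g⁻¹) a b

lemma adj_sum {α : Type} (s : Finset α) (f : α → MonoidAlgebra ℝ Γ) : adj (∑ i ∈ s, f i) = ∑ i ∈ s, adj (f i) := by
  unfold adj
  exact map_sum (MonoidAlgebra.mapDomainLinearMap ℝ ℝ fun g : Γ => g⁻¹) f s

/-- the sum of the coefficients -/
noncomputable def eps : MonoidAlgebra ℝ Γ →ₐ[ℝ] ℝ := MonoidAlgebra.lift ℝ ℝ Γ 1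

lemma eps_single (g : Γ) (r : ℝ) : eps (MonoidAlgebra.single g r) = r := by
  unfold eps
  rw [MonoidAlgebra.lift_single]
  simp

lemma eps_adj (ξ : MonoidAlgebra ℝ Γ) : eps (adj ξ) = eps ξ := by
  classical
  rw [expand ξ (subset_refl _), adj_sum, map_sum, map_sum]
  refine Finset.sum_congr rfl fun g _ => ?_
  rw [adj_single, eps_single, eps_single]

lemma adj_mul_self [DecidableEq Γ] (ξ : MonoidAlgebra ℝ Γ) {F : Finset Γ} (hF : ξ.coeff.support ⊆ F) :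
    adj ξ * ξ = ∑ g ∈ F, ∑ h ∈ F, MonoidAlgebra.single (g⁻¹ * h) (ξ.coeff g * ξ.coeff h) := by
  conv_lhs => rw [expand ξ hF]
  rw [adj_sum, Finset.sum_mul_sum]
  refine Finset.sum_congr rfl fun g _ => Finset.sum_congr rfl fun h _ => ?_
  rw [adj_single, MonoidAlgebra.single_mul_single]

/-- The square identity for a local cocycle. -/
lemma square_id [DecidableEq Γ] {U : Γ → E →ₗᵢ[ℝ] E} {b : Γ → E} {F : Finset Γ}
    (hb : ∀ g ∈ F, ∀ h ∈ F, b h = b g + U g (b (g⁻¹ * h))) {ξ : MonoidAlgebra ℝ Γ}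
    (hF : ξ.coeff.support ⊆ F) (h0 : eps ξ = 0) :
    ext (fun g => ‖b g‖ ^ 2) (adj ξ * ξ) = -2 * ‖ext b ξ‖ ^ 2 := by
  have h1 : ext b ξ = ∑ g ∈ F, ξ.coeff g • b g := by
    conv_lhs => rw [expand ξ hF]
    rw [map_sum]
    exact Finset.sum_congr rfl fun g _ => ext_single b g _
  have h2 : ∑ g ∈ F, ξ.coeff g = 0 := by
    rw [← h0]
    conv_rhs => rw [expand ξ hF]
    rw [map_sum]
    exact Finset.sum_congr rfl fun g _ => (eps_single g _).symm
  have h3 : ∀ g ∈ F, ∀ h ∈ F, ⟪b g, b h⟫ = (‖b g‖ ^ 2 + ‖b h‖ ^ 2 - ‖b (g⁻¹ * h)‖ ^ 2) / 2 := by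
    intro g hg h hh
    have h4 : ‖b (g⁻¹ * h)‖ = ‖b h - b g‖ := by
      rw [hb g hg h hh, add_sub_cancel_left, (U g).norm_map]
    rw [h4, norm_sub_sq_real, real_inner_comm]
    ring
  have h5 : ‖ext b ξ‖ ^ 2 = ∑ g ∈ F, ∑ h ∈ F, ξ.coeff g * ξ.coeff h * ⟪b g, b h⟫ := by
    rw [h1, ← real_inner_self_eq_norm_sq, sum_inner]
    refine Finset.sum_congr rfl fun g _ => ?_
    rw [inner_sum]
    refine Finset.sum_congr rfl fun h _ => ?_
    rw [real_inner_smul_left, real_inner_smul_right]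
    ring
  have h6 : ext (fun g => ‖b g‖ ^ 2) (adj ξ * ξ) = ∑ g ∈ F, ∑ h ∈ F, ξ.coeff g * ξ.coeff h * ‖b (g⁻¹ * h)‖ ^ 2 := by
    rw [adj_mul_self ξ hF, map_sum]
    refine Finset.sum_congr rfl fun g _ => ?_
    rw [map_sum]
    refine Finset.sum_congr rfl fun h _ => ?_
    rw [ext_single, smul_eq_mul]
  have h7 : ∑ g ∈ F, ∑ h ∈ F, ξ.coeff g * ξ.coeff h * ⟪b g, b h⟫ =
      (∑ g ∈ F, ξ.coeff g * ‖b g‖ ^ 2) * (∑ h ∈ F, ξ.coeff h) / 2 +
      (∑ g ∈ F, ξ.coeff g) * (∑ h ∈ F, ξ.coeff h * ‖b h‖ ^ 2) / 2 -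
      (∑ g ∈ F, ∑ h ∈ F, ξ.coeff g * ξ.coeff h * ‖b (g⁻¹ * h)‖ ^ 2) / 2 := by
    rw [Finset.sum_mul_sum, Finset.sum_mul_sum, Finset.sum_div, Finset.sum_div, Finset.sum_div,
      ← Finset.sum_add_distrib, ← Finset.sum_sub_distrib]
    refine Finset.sum_congr rfl fun g hg => ?_
    rw [Finset.sum_div, Finset.sum_div, Finset.sum_div, ← Finset.sum_add_distrib, ← Finset.sum_sub_distrib]
    refine Finset.sum_congr rfl fun h hh => ?_
    rw [h3 g hg h hh]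
    ring
  rw [h6, h5, h7, h2]
  ring

variable {S : Finset Γ} {ε : ℝ} {m : ℕ} {ξ : Fin m → MonoidAlgebra ℝ Γ}

lemma eps_lap (S : Finset Γ) : eps (lap S) = 0 := by
  unfold lap
  rw [map_sum]
  refine Finset.sum_eq_zero fun s _ => ?_
  rw [map_sub, map_one, eps_single, sub_self]

lemma adj_lap [DecidableEq Γ] (hS : ∀ s ∈ S, s⁻¹ ∈ S) : adj (lap S) = lap S := by
  unfold lap
  rw [adj_sum]
  have h1 : ∀ s : Γ, adj (1 - MonoidAlgebra.single s 1) = 1 - MonoidAlgebra.single s⁻¹ 1 := by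
    intro s
    have h := adj_add (1 - MonoidAlgebra.single s 1) (MonoidAlgebra.single s 1)
    rw [sub_add_cancel, adj_single] at h
    have h' : adj (1 : MonoidAlgebra ℝ Γ) = 1 := by
      rw [MonoidAlgebra.one_def, adj_single, inv_one]
    rw [h'] at h
    exact eq_sub_of_add_eq h.symm
  simp_rw [h1]
  refine Finset.sum_bij' (fun s _ => s⁻¹) (fun s _ => s⁻¹) hS hS ?_ ?_ ?_
  · intro s _; exact inv_inv s
  · intro s _; exact inv_inv s
  · intro s _; rfl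

/-- the inequality for local cocycles -/
lemma main_ineq [DecidableEq Γ] (hS : ∀ s ∈ S, s⁻¹ ∈ S)
    (hT : lap S * lap S - ε • lap S = ∑ j, adj (ξ j) * ξ j) {U : Γ → E →ₗᵢ[ℝ] E}
    (hU : ∀ v, U 1 v = v) {b : Γ → E} {F : Finset Γ} (h1F : 1 ∈ F) (hSF : S ⊆ F)
    (hξF : ∀ j, (ξ j).coeff.support ⊆ F) (hb : ∀ g ∈ F, ∀ h ∈ F, b h = b g + U g (b (g⁻¹ * h))) :
    ε * ∑ s ∈ S, ‖b s‖ ^ 2 ≤ 2 * ‖∑ s ∈ S, b s‖ ^ 2 := by
  have hb1 : b 1 = 0 := by
    have h := hb 1 h1F 1 h1F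
    rw [inv_one, one_mul, hU] at h
    exact left_eq_add.1 h
  have hξ : ∀ j, eps (ξ j) = 0 := by
    have h := congrArg eps hT
    rw [map_sub, map_mul, map_smul, eps_lap, mul_zero, smul_zero, sub_zero, map_sum] at h
    have h2 : ∀ j, eps (adj (ξ j) * ξ j) = eps (ξ j) ^ 2 := by
      intro j
      rw [map_mul, eps_adj, sq]
    simp_rw [h2] at h
    have h3 := (Finset.sum_eq_zero_iff_of_nonneg fun j _ => sq_nonneg (eps (ξ j))).1 h.symm
    intro j
    exact pow_eq_zero_iff (two_ne_zero) |>.1 (h3 j (Finset.mem_univ j))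
  have hlapF : (lap S).coeff.support ⊆ F := by
    intro g hg
    rw [Finsupp.mem_support_iff] at hg
    by_contra hgF
    apply hg
    unfold lap
    rw [MonoidAlgebra.coeff_sum, Finsupp.finsetSum_apply]
    refine Finset.sum_eq_zero fun s hs => ?_
    rw [MonoidAlgebra.coeff_sub, Finsupp.sub_apply, MonoidAlgebra.one_def]
    show (Finsupp.single (1 : Γ) (1 : ℝ)) g - (Finsupp.single s (1 : ℝ)) g = 0
    rw [Finsupp.single_apply, Finsupp.single_apply, if_neg, if_neg, sub_self]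
    · rintro rfl; exact hgF (hSF hs)
    · rintro rfl; exact hgF h1F
  have h1 := congrArg (ext fun g => ‖b g‖ ^ 2) hT
  rw [map_sub, map_smul, map_sum] at h1
  conv_lhs at h1 => rw [show lap S * lap S = adj (lap S) * lap S by rw [adj_lap hS]]
  rw [square_id hb hlapF (eps_lap S)] at h1
  simp_rw [fun j => square_id hb (hξF j) (hξ j)] at h1
  have h2 : ext b (lap S) = -∑ s ∈ S, b s := by
    unfold lap
    rw [map_sum, ← Finset.sum_neg_distrib]
    refine Finset.sum_congr rfl fun s _ => ?_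
    rw [map_sub, MonoidAlgebra.one_def, ext_single, ext_single, one_smul, one_smul, hb1, zero_sub]
  have h3 : ext (fun g => ‖b g‖ ^ 2) (lap S) = -∑ s ∈ S, ‖b s‖ ^ 2 := by
    unfold lap
    rw [map_sum, ← Finset.sum_neg_distrib]
    refine Finset.sum_congr rfl fun s _ => ?_
    rw [map_sub, MonoidAlgebra.one_def, ext_single, ext_single, one_smul, one_smul, hb1, norm_zero]
    ring
  rw [h2, h3, norm_neg, smul_eq_mul] at h1
  have h4 : ∑ j, -2 * ‖ext b (ξ j)‖ ^ 2 ≤ 0 :=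
    Finset.sum_nonpos fun j _ => by nlinarith [sq_nonneg ‖ext b (ξ j)‖]
  linarith

/-- one step of the descent -/
lemma descent [DecidableEq Γ] (hS : ∀ s ∈ S, s⁻¹ ∈ S) {U : Γ → E →ₗᵢ[ℝ] E}
    (hU : ∀ v, U 1 v = v) {b : Γ → E} {F : Finset Γ} (h1F : 1 ∈ F)
    (hSF : S ⊆ F) (hb : ∀ g ∈ F, ∀ h ∈ F, b h = b g + U g (b (g⁻¹ * h))) (u : E) (t : ℝ) :
    ∑ s ∈ S, ‖b s + t • (U s u - u)‖ ^ 2 ≤
      ∑ s ∈ S, ‖b s‖ ^ 2 - 4 * t * ⟪∑ s ∈ S, b s, u⟫ + t ^ 2 * (4 * S.card * ‖u‖ ^ 2) := by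
  have hb1 : b 1 = 0 := by
    have h := hb 1 h1F 1 h1F
    rw [inv_one, one_mul, hU] at h
    exact left_eq_add.1 h
  have h1 : ∀ s ∈ S, ‖b s + t • (U s u - u)‖ ^ 2 = ‖b s‖ ^ 2 + 2 * t * (⟪b s, U s u⟫ - ⟪b s, u⟫) +
      t ^ 2 * ‖U s u - u‖ ^ 2 := by
    intro s _
    rw [norm_add_sq_real, norm_smul, mul_pow, Real.norm_eq_abs, sq_abs, real_inner_smul_right, inner_sub_right]
    ring
  have h2 : ∀ s ∈ S, ⟪b s, U s u⟫ = -⟪b s⁻¹, u⟫ := by
    intro s hs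
    have h := hb s (hSF hs) 1 h1F
    rw [hb1, mul_one] at h
    have h' : b s = -U s (b s⁻¹) := eq_neg_of_add_eq_zero_left h.symm
    rw [h', inner_neg_left, (U s).inner_map_map]
  have h3 : ∑ s ∈ S, ⟪b s, U s u⟫ = -⟪∑ s ∈ S, b s, u⟫ := by
    rw [Finset.sum_congr rfl h2, Finset.sum_neg_distrib, sum_inner]
    congr 1
    refine Finset.sum_bij' (fun s _ => s⁻¹) (fun s _ => s⁻¹) hS hS ?_ ?_ ?_
    · intro s _; exact inv_inv s
    · intro s _; exact inv_inv s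
    · intro s _; rfl
  have h4 : ∀ s ∈ S, ‖U s u - u‖ ^ 2 ≤ 4 * ‖u‖ ^ 2 := by
    intro s _
    have h5 : ‖U s u - u‖ ≤ 2 * ‖u‖ := by
      calc ‖U s u - u‖ ≤ ‖U s u‖ + ‖u‖ := norm_sub_le _ _
        _ = 2 * ‖u‖ := by rw [(U s).norm_map]; ring
    nlinarith [norm_nonneg (U s u - u), norm_nonneg u]
  have h5 : ∑ s ∈ S, ‖U s u - u‖ ^ 2 ≤ 4 * S.card * ‖u‖ ^ 2 := by
    calc ∑ s ∈ S, ‖U s u - u‖ ^ 2 ≤ ∑ s ∈ S, 4 * ‖u‖ ^ 2 := Finset.sum_le_sum h4
      _ = 4 * S.card * ‖u‖ ^ 2 := by rw [Finset.sum_const, nsmul_eq_mul]; ring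
  have h6 : ∑ s ∈ S, ‖b s + t • (U s u - u)‖ ^ 2 = ∑ s ∈ S, ‖b s‖ ^ 2 +
      2 * t * (∑ s ∈ S, ⟪b s, U s u⟫ - ∑ s ∈ S, ⟪b s, u⟫) + t ^ 2 * ∑ s ∈ S, ‖U s u - u‖ ^ 2 := by
    rw [Finset.sum_congr rfl h1, Finset.sum_add_distrib, Finset.sum_add_distrib, Finset.mul_sum,
      ← Finset.sum_sub_distrib, Finset.mul_sum]
  rw [h6, h3, ← sum_inner]
  nlinarith [mul_le_mul_of_nonneg_left h5 (sq_nonneg t)]

variable [CompleteSpace E]

/-- Local cocycles of a group with property (T) are inner. -/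
theorem exists_fixed [DecidableEq Γ] (hS : ∀ s ∈ S, s⁻¹ ∈ S) (hε : 0 < ε)
    (hT : lap S * lap S - ε • lap S = ∑ j, adj (ξ j) * ξ j) {U : Γ → E →ₗᵢ[ℝ] E}
    (hU : ∀ v, U 1 v = v) (hUm : ∀ g h v, U (g * h) v = U g (U h v)) {b : Γ → E} {F : Finset Γ} (h1F : 1 ∈ F)
    (hSF : S ⊆ F) (hξF : ∀ j, (ξ j).coeff.support ⊆ F)
    (hb : ∀ g ∈ F, ∀ h ∈ F, b h = b g + U g (b (g⁻¹ * h))) : ∃ v : E, ∀ s ∈ S, b s = v - U s v := by
  rcases S.eq_empty_or_nonempty with hSe | hSne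
  · exact ⟨0, fun s hs => by rw [hSe] at hs; exact absurd hs (Finset.notMem_empty s)⟩
  set N : ℝ := (S.card : ℝ) with hN
  have hN0 : 0 < N := by
    rw [hN]
    exact_mod_cast hSne.card_pos
  let bv : E → Γ → E := fun v g => b g + (U g v - v)
  have hbv : ∀ v, ∀ g ∈ F, ∀ h ∈ F, bv v h = bv v g + U g (bv v (g⁻¹ * h)) := by
    intro v g hg h hh
    show b h + (U h v - v) = b g + (U g v - v) + U g (b (g⁻¹ * h) + (U (g⁻¹ * h) v - v))
    rw [map_add, map_sub, ← hUm, mul_inv_cancel_left, hb g hg h hh]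
    abel
  let En : E → ℝ := fun v => ∑ s ∈ S, ‖bv v s‖ ^ 2
  let be : E → E := fun v => ∑ s ∈ S, bv v s
  have hEn0 : ∀ v, 0 ≤ En v := fun v => Finset.sum_nonneg fun s _ => sq_nonneg _
  have hstar : ∀ v, ε * En v ≤ 2 * ‖be v‖ ^ 2 := fun v => main_ineq hS hT hU h1F hSF hξF (hbv v)
  have hCS : ∀ v, ‖be v‖ ^ 2 ≤ N * En v := by
    intro v
    have h1 : ‖be v‖ ≤ ∑ s ∈ S, ‖bv v s‖ := norm_sum_le _ _
    have h2 : (∑ s ∈ S, ‖bv v s‖) ^ 2 ≤ N * ∑ s ∈ S, ‖bv v s‖ ^ 2 := sq_sum_le_card_mul_sum_sq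
    exact (pow_le_pow_left₀ (norm_nonneg _) h1 2).trans h2
  let t : ℝ := 1 / (2 * N)
  let st : E → E := fun v => v + t • be v
  set r : ℝ := max (1 - ε / (2 * N)) 0 with hr
  have hr0 : 0 ≤ r := le_max_right _ _
  have hr1 : r < 1 := by
    rw [hr]
    refine max_lt ?_ one_pos
    have : 0 < ε / (2 * N) := by positivity
    linarith
  have hstep : ∀ v, En (st v) ≤ r * En v := by
    intro v
    have h1 := descent hS hU h1F hSF (hbv v) (be v) t
    have h2 : ∀ s, bv v s + t • (U s (be v) - be v) = bv (st v) s := by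
      intro s
      show b s + (U s v - v) + t • (U s (be v) - be v) = b s + (U s (v + t • be v) - (v + t • be v))
      rw [map_add, (U s).map_smul, smul_sub]
      abel
    simp_rw [h2] at h1
    rw [real_inner_self_eq_norm_sq] at h1
    have h3 : En (st v) ≤ En v - 4 * t * ‖be v‖ ^ 2 + t ^ 2 * (4 * N * ‖be v‖ ^ 2) := h1
    have h4 : En v - 4 * t * ‖be v‖ ^ 2 + t ^ 2 * (4 * N * ‖be v‖ ^ 2) = En v - ‖be v‖ ^ 2 / N := by
      show En v - 4 * (1 / (2 * N)) * ‖be v‖ ^ 2 + (1 / (2 * N)) ^ 2 * (4 * N * ‖be v‖ ^ 2) = _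
      field_simp
      ring
    have h5 : ε * En v / (2 * N) ≤ ‖be v‖ ^ 2 / N := by
      rw [div_le_div_iff₀ (by positivity) hN0]
      nlinarith [hstar v]
    have h6 : (1 - ε / (2 * N)) * En v ≤ r * En v := mul_le_mul_of_nonneg_right (le_max_left _ _) (hEn0 v)
    have h7 : (1 - ε / (2 * N)) * En v = En v - ε * En v / (2 * N) := by ring
    linarith
  let sq : ℕ → E := fun k => st^[k] 0
  have hsq : ∀ k, sq (k + 1) = st (sq k) := fun k => Function.iterate_succ_apply' st k 0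
  have hEk : ∀ k, En (sq k) ≤ r ^ k * En 0 := by
    intro k
    induction k with
    | zero => rw [pow_zero, one_mul]; exact le_rfl
    | succ k ih =>
      rw [hsq, pow_succ']
      calc En (st (sq k)) ≤ r * En (sq k) := hstep _
        _ ≤ r * (r ^ k * En 0) := mul_le_mul_of_nonneg_left ih hr0
        _ = r * r ^ k * En 0 := by ring
  have hdist : ∀ k, dist (sq k) (sq (k + 1)) ≤ (t * Real.sqrt (N * En 0)) * Real.sqrt r ^ k := by
    intro k
    rw [hsq, dist_eq_norm]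
    have h1 : sq k - st (sq k) = -(t • be (sq k)) := by
      show sq k - (sq k + t • be (sq k)) = _
      abel
    have ht : 0 < t := by
      show 0 < 1 / (2 * N)
      positivity
    rw [h1, norm_neg, norm_smul, Real.norm_eq_abs, abs_of_pos ht, mul_assoc]
    refine mul_le_mul_of_nonneg_left ?_ ht.le
    have h2 : ‖be (sq k)‖ ^ 2 ≤ (Real.sqrt (N * En 0) * Real.sqrt r ^ k) ^ 2 := by
      rw [mul_pow, Real.sq_sqrt (mul_nonneg hN0.le (hEn0 0)), ← pow_mul, mul_comm k 2, pow_mul, Real.sq_sqrt hr0]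
      calc ‖be (sq k)‖ ^ 2 ≤ N * En (sq k) := hCS _
        _ ≤ N * (r ^ k * En 0) := mul_le_mul_of_nonneg_left (hEk k) hN0.le
        _ = N * En 0 * r ^ k := by ring
    exact (pow_le_pow_iff_left₀ (norm_nonneg _) (by positivity) two_ne_zero).1 h2
  have hsr : Real.sqrt r < 1 := by
    rw [Real.sqrt_lt' one_pos, one_pow]
    exact hr1
  obtain ⟨v, hv⟩ := cauchySeq_tendsto_of_complete (cauchySeq_of_le_geometric _ _ hsr hdist)
  have hcont : Continuous En := by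
    refine continuous_finsetSum _ fun s _ => ?_
    refine Continuous.pow (Continuous.norm ?_) 2
    exact continuous_const.add (((U s).continuous).sub continuous_id)
  have hlim : Filter.Tendsto (fun k => En (sq k)) Filter.atTop (nhds (En v)) := (hcont.tendsto v).comp hv
  have hz : Filter.Tendsto (fun k => r ^ k * En 0) Filter.atTop (nhds 0) := by
    have := (tendsto_pow_atTop_nhds_zero_of_lt_one hr0 hr1).mul_const (En 0)
    rwa [zero_mul] at this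
  have hE0 : En v = 0 := le_antisymm (le_of_tendsto_of_tendsto' hlim hz hEk) (hEn0 v)
  have h1 := (Finset.sum_eq_zero_iff_of_nonneg fun s _ => sq_nonneg ‖bv v s‖).1 hE0
  refine ⟨v, fun s hs => ?_⟩
  have h2 := norm_eq_zero.1 (pow_eq_zero_iff two_ne_zero |>.1 (h1 s hs))
  have h3 : b s + (U s v - v) = 0 := h2
  rw [eq_neg_of_add_eq_zero_left h3, neg_sub]

end Pool.Agent.H5L
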