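import Pool.Agent.H5L.T1
import Pool.Agent.H5L.L2
import Pool.Agent.H5L.C2

/-!
A nontrivial group with vanishing second homology does not have property (T).
-/

set_option autoImplicit false

open scoped ENNReal RealInnerProductSpace
open MonoidAlgebra Pool.Agent.H5

namespace Pool.Agent.H5L

variable {H : Type} [Group H] {ι : Type}

/-- left translation -/
noncomputable def lt (k : H) : L2 H ι →ₗᵢ[ℝ] L2 H ι :=
  let e : H × ι ≃ H × ι := Equiv.prodCongr (Equiv.mulLeft k⁻¹) (Equiv.refl ι)
  LinearMap.isometryOfInner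
    { toFun := fun v => ⟨fun p => v (e p), (memlp_iff _).2 (e.summable_iff.2 ((memlp_iff _).1 (lp.memℓp v)))⟩
      map_add' := fun v w => rfl
      map_smul' := fun c v => rfl }
    (by
      intro v w
      rw [lp.inner_eq_tsum, lp.inner_eq_tsum]
      exact e.tsum_eq fun p => ⟪v p, w p⟫)

lemma lt_apply (k : H) (v : L2 H ι) (p : H × ι) : lt k v p = v (k⁻¹ * p.1, p.2) := rfl

lemma lt_mul (g k : H) (v : L2 H ι) : lt (g * k) v = lt g (lt k v) := by
  ext p
  rw [lt_apply, lt_apply, lt_apply, mul_inv_rev, mul_assoc]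

lemma lt_one (v : L2 H ι) : lt 1 v = v := by
  ext p
  rw [lt_apply, inv_one, one_mul]

variable [Fintype ι]

lemma colV_add (f g : ι → MonoidAlgebra ℤ H) : colV (f + g) = colV f + colV g := by
  ext p
  rw [lp.coeFn_add, Pi.add_apply, colV_apply, colV_apply, colV_apply, Pi.add_apply, MonoidAlgebra.coeff_add,
    Finsupp.add_apply, Int.cast_add]

lemma colV_smul (g : H) (f : ι → MonoidAlgebra ℤ H) : colV (el g • f) = lt g (colV f) := by
  ext p
  rw [lt_apply, colV_apply, colV_apply, Pi.smul_apply, smul_eq_mul, coeff_el_mul]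

/-- local derivations -/
lemma exists_local [DecidableEq ι] {x : ι → H} (hH : ∀ A : Rep.{0} ℤ H, Subsingleton (groupHomology A 2))
    (hinj : Function.Injective x) (hx : Subgroup.closure (Set.range x) = ⊤) (P : Finset (H × H)) :
    ∃ d : H → ι → MonoidAlgebra ℤ H, (∀ g, d g ⬝ᵥ colX x = el g - 1) ∧
      ∀ p ∈ P, d (p.1 * p.2) = d p.1 + el p.1 • d p.2 := by
  classical
  obtain ⟨D, hD, -⟩ := exists_D0 hinj hx
  obtain ⟨θ, hθ, hfix⟩ := villamayor hH hinj hx (P.image (defect D)) (by
    intro k hk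
    obtain ⟨p, -, rfl⟩ := Finset.mem_image.1 hk
    exact defect_mem hD p)
  refine ⟨fun g => Matrix.vecMul (D g) (1 - θ), ?_, ?_⟩
  · intro a
    have h1 : Matrix.vecMul (D a) θ ⬝ᵥ colX x = 0 := by
      have : Matrix.vecMul (D a) θ = ∑ i, D a i • θ i := by
        funext j
        simp [Matrix.vecMul, dotProduct]
      have h2 : Matrix.vecMul (D a) θ ∈ relMod x := by
        rw [this]
        exact Submodule.sum_mem _ fun i _ => Submodule.smul_mem _ _ (hθ i)
      exact h2
    show Matrix.vecMul (D a) (1 - θ) ⬝ᵥ colX x = el a - 1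
    rw [Matrix.vecMul_sub, Matrix.vecMul_one, sub_dotProduct, hD, h1, sub_zero]
  · rintro ⟨a, b⟩ hp
    have h2 := hfix _ (Finset.mem_image_of_mem (defect D) hp)
    have h3 : Matrix.vecMul (defect D (a, b)) θ - defect D (a, b)
        = Matrix.vecMul (D (a * b)) (1 - θ) - Matrix.vecMul (D a) (1 - θ)
          - el a • Matrix.vecMul (D b) (1 - θ) := by
      rw [defect, Matrix.vecMul_sub, Matrix.vecMul_sub, Matrix.vecMul_sub, Matrix.vecMul_one,
        Matrix.vecMul_one, Matrix.vecMul_one, Matrix.add_vecMul, Matrix.sub_vecMul,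
        Matrix.smul_vecMul, smul_sub]
      abel
    rw [h2, sub_self, eq_comm, sub_sub, sub_eq_zero] at h3
    exact h3

lemma tends (v : L2 H ι) {δ : ℝ} (hδ : 0 < δ) : {p : H × ι | δ ≤ |v p|}.Finite := by
  have h1 : Summable fun p => v p ^ 2 := (memlp_iff _).1 (lp.memℓp v)
  have h2 := h1.tendsto_cofinite_zero
  have h3 := h2.eventually (gt_mem_nhds (show (0 : ℝ) < δ ^ 2 by positivity))
  rw [Filter.eventually_cofinite] at h3
  refine h3.subset fun p hp => ?_
  have hp' : δ ≤ |v p| := hp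
  show ¬ v p ^ 2 < δ ^ 2
  rw [not_lt, ← sq_abs (v p)]
  exact pow_le_pow_left₀ hδ.le hp' 2

/-- integrality of a potential -/
lemma potential_int [Infinite H] {S : Finset H} (hgen : Subgroup.closure (S : Set H) = ⊤) (v : L2 H ι)
    (hv : ∀ s ∈ S, ∀ p, ∃ k : ℤ, v p - lt s v p = k) (p : H × ι) : ∃ k : ℤ, v p = k := by
  have hall : ∀ g : H, ∀ p, ∃ k : ℤ, v p - lt g v p = k := by
    intro g
    have hg : g ∈ Subgroup.closure (S : Set H) := by rw [hgen]; trivial
    induction hg using Subgroup.closure_induction with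
    | mem g hg => exact hv g hg
    | one => exact fun p => ⟨0, by rw [lt_one, sub_self, Int.cast_zero]⟩
    | mul g h _ _ ihg ihh =>
      intro p
      obtain ⟨k, hk⟩ := ihg p
      obtain ⟨l, hl⟩ := ihh (g⁻¹ * p.1, p.2)
      refine ⟨k + l, ?_⟩
      have h1 : lt (g * h) v p = lt h v (g⁻¹ * p.1, p.2) := by
        rw [lt_mul, lt_apply]
      have h2 : lt g v p = v (g⁻¹ * p.1, p.2) := rfl
      rw [h1, Int.cast_add, ← hk, ← hl, h2]
      ring
    | inv g _ ih =>
      intro p
      obtain ⟨k, hk⟩ := ih (g * p.1, p.2)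
      refine ⟨-k, ?_⟩
      have h1 : lt g⁻¹ v p = v (g * p.1, p.2) := by
        rw [lt_apply, inv_inv]
      have h2 : lt g v (g * p.1, p.2) = v p := by
        rw [lt_apply, inv_mul_cancel_left]
      rw [h1, Int.cast_neg, ← hk, h2]
      ring
  have hcl : v p ∈ closure (Set.range ((↑) : ℤ → ℝ)) := by
    rw [Metric.mem_closure_iff]
    intro δ hδ
    have h1 : {g : H | δ ≤ |v (g⁻¹ * p.1, p.2)|}.Finite := by
      refine (tends v hδ).preimage (f := fun g : H => (g⁻¹ * p.1, p.2)) (Function.Injective.injOn ?_)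
      intro a b hab
      exact inv_injective (mul_right_cancel (Prod.ext_iff.1 hab).1)
    obtain ⟨g, hg⟩ := h1.exists_notMem
    obtain ⟨k, hk⟩ := hall g p
    refine ⟨k, ⟨k, rfl⟩, ?_⟩
    have h2 : lt g v p = v (g⁻¹ * p.1, p.2) := rfl
    rw [Real.dist_eq, ← hk, h2, sub_sub_cancel]
    exact not_le.1 hg
  rw [Int.isClosedEmbedding_coe_real.isClosed_range.closure_eq] at hcl
  obtain ⟨k, hk⟩ := hcl
  exact ⟨k, hk.symm⟩

/-- A nontrivial group with vanishing second homology does not have property (T). -/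
theorem not_T (hH : ∀ A : Rep.{0} ℤ H, Subsingleton (groupHomology A 2)) (hne : ∃ h : H, h ≠ 1) : ¬ PropertyT H := by
  classical
  rintro ⟨S, ε, m, ξ, hgen, hS, hε, hT⟩
  obtain ⟨h0, hh0⟩ := hne
  have hord : ∀ h : H, h ≠ 1 → ¬ IsOfFinOrder h := fun h hh hf => hh (torsionfree hH h hf)
  have hinf : Infinite H := Infinite.of_injective _ (injective_pow_iff_not_isOfFinOrder.2 (hord h0 hh0))
  let x : S → H := Subtype.val
  have hinj : Function.Injective x := Subtype.val_injective
  have hx : Subgroup.closure (Set.range x) = ⊤ := by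
    rw [Subtype.range_coe_subtype]
    exact hgen
  let F : Finset H := insert 1 (S ∪ Finset.univ.biUnion fun j => (ξ j).coeff.support)
  have h1F : (1 : H) ∈ F := Finset.mem_insert_self _ _
  have hSF : S ⊆ F := fun s hs => Finset.mem_insert_of_mem (Finset.mem_union_left _ hs)
  have hξF : ∀ j, (ξ j).coeff.support ⊆ F := fun j g hg =>
    Finset.mem_insert_of_mem (Finset.mem_union_right _ (Finset.mem_biUnion.2 ⟨j, Finset.mem_univ j, hg⟩))
  obtain ⟨d, hd, hdP⟩ := exists_local hH hinj hx ((F ×ˢ F).image fun p => (p.1, p.1⁻¹ * p.2))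
  have hb : ∀ g ∈ F, ∀ h ∈ F, colV (d h) = colV (d g) + lt g (colV (d (g⁻¹ * h))) := by
    intro g hg h hh
    have h1 := hdP (g, g⁻¹ * h) (Finset.mem_image.2 ⟨(g, h), Finset.mem_product.2 ⟨hg, hh⟩, rfl⟩)
    rw [mul_inv_cancel_left] at h1
    rw [h1, colV_add, colV_smul]
  obtain ⟨v, hv⟩ := exists_fixed (E := L2 H S) hS hε hT (U := lt) lt_one lt_mul (b := fun g => colV (d g))
    h1F hSF hξF hb
  have hint := potential_int hgen v (by
    intro s hs p
    refine ⟨(d s p.2).coeff p.1, ?_⟩
    have h1 := congrArg (fun w : L2 H S => w p) (hv s hs)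
    simp only [lp.coeFn_sub, Pi.sub_apply] at h1
    rw [← h1, colV_apply])
  choose k hk using hint
  have hfin : ∀ i, {y : H | k (y, i) ≠ 0}.Finite := by
    intro i
    refine ((tends v (show (0 : ℝ) < 1 by norm_num)).preimage (f := fun y : H => (y, i))
      (Function.Injective.injOn fun a b hab => (Prod.ext_iff.1 hab).1)).subset ?_
    intro y hy
    show (1 : ℝ) ≤ |v (y, i)|
    rw [hk]
    have : (1 : ℤ) ≤ |k (y, i)| := Int.one_le_abs hy
    rw [← Int.cast_abs]
    exact_mod_cast this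
  let V : S → MonoidAlgebra ℤ H := fun i => MonoidAlgebra.ofCoeff
    (Finsupp.onFinset (hfin i).toFinset (fun y => k (y, i)) (by
      intro y hy
      rw [Set.Finite.mem_toFinset]
      exact hy))
  have hV : ∀ i y, (V i).coeff y = k (y, i) := fun i y => rfl
  have hdV : ∀ s ∈ S, d s = V - el s • V := by
    intro s hs
    funext i
    ext y
    rw [Pi.sub_apply, Pi.smul_apply, smul_eq_mul, MonoidAlgebra.coeff_sub, Finsupp.sub_apply, coeff_el_mul, hV, hV]
    have h1 := congrArg (fun w : L2 H S => w (y, i)) (hv s hs)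
    simp only [lp.coeFn_sub, Pi.sub_apply] at h1
    rw [colV_apply, lt_apply, hk, hk] at h1
    exact_mod_cast h1
  have hex : ∃ s ∈ S, s ≠ 1 := by
    by_contra hcon
    push Not at hcon
    apply hh0
    have h1 : h0 ∈ Subgroup.closure (S : Set H) := by rw [hgen]; trivial
    have h2 : Subgroup.closure (S : Set H) ≤ ⊥ := by
      rw [Subgroup.closure_le]
      intro s hs
      exact hcon s hs
    exact h2 h1
  obtain ⟨s, hs, hs1⟩ := hex
  have h1 := hd s
  rw [hdV s hs, sub_dotProduct, smul_dotProduct, smul_eq_mul] at h1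
  have h2 : (el s - 1) * (1 + V ⬝ᵥ colX x) = 0 := by
    rw [mul_add, mul_one, sub_mul, one_mul]
    rw [← h1]
    abel
  have h3 := sub_one_mul_eq_zero (hord s hs1) h2
  have h4 := congrArg (aug H) h3
  rw [map_add, map_one, map_zero, dotProduct, map_sum, Finset.sum_eq_zero, add_zero] at h4
  · exact one_ne_zero h4
  · intro i _
    rw [map_mul, colX, map_sub, map_one, aug_el, sub_self, mul_zero]

end Pool.Agent.H5L
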