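import Mathlib

/-!
Property (T) in the form of Ozawa: a sum of squares in the real group ring.
-/

set_option autoImplicit false

namespace Pool.Agent.H5L

/-- the unnormalised Laplace element `∑ (1 - s)` of the real group ring -/
noncomputable def lap {Γ : Type} [Group Γ] (S : Finset Γ) : MonoidAlgebra ℝ Γ :=
  ∑ s ∈ S, (1 - MonoidAlgebra.single s 1)

/-- the adjoint: `∑ a_g g ↦ ∑ a_g g⁻¹` -/
noncomputable def adj {Γ : Type} [Group Γ] (ξ : MonoidAlgebra ℝ Γ) : MonoidAlgebra ℝ Γ :=
  MonoidAlgebra.mapDomain (fun g => g⁻¹) ξ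

/-- Kazhdan's property (T) for a finitely generated group, in the equivalent form found by Ozawa:
for some finite symmetric generating set with Laplace element `Δ` and some `ε > 0`, the element
`Δ² - ε Δ` is a sum of hermitian squares `ξ* ξ` in the real group ring. -/
def PropertyT (Γ : Type) [Group Γ] : Prop :=
  ∃ (S : Finset Γ) (ε : ℝ) (m : ℕ) (ξ : Fin m → MonoidAlgebra ℝ Γ),
    Subgroup.closure (S : Set Γ) = ⊤ ∧ (∀ s ∈ S, s⁻¹ ∈ S) ∧ 0 < ε ∧
      lap S * lap S - ε • lap S = ∑ j, adj (ξ j) * ξ j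

end Pool.Agent.H5L
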